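import Pool.Agent.TH63.KQ.Stallings

/-!
# Stallings' conjecture `B_n(p)` after a homomorphism to an abelian-by-(finite `p`-group) group

Let `F` be a free group of finite rank and `S` a subgroup inducing an isomorphism on `H_1( ; Z/p)`.
If `a` is a product of `F`-conjugates of `g_1, ..., g_n` (all in `S`), then for every homomorphism
`θ` from `S` to a group `Q` with an abelian normal subgroup of `p`-power index, `θ(a)` is a product
of `Q`-conjugates of `θ(g_1), ..., θ(g_n)`.
-/

set_option autoImplicit false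

open Monoid
open scoped TensorProduct

namespace Pool.Agent.Results.MP_e9d015_al.AbelianByPowerQuotients

/-- Let `S` be a subgroup of the free group `F` of rank `k` such that `H_1(S; Z/p) → H_1(F; Z/p)` is
an isomorphism, and `a, g_1, ..., g_n` in `S` such that `a` is a product of `F`-conjugates of
`g_1, ..., g_n`.  Let `θ` be a homomorphism from `S` to a group `Q` which has an abelian normal
subgroup `A` whose index is a power of `p`.  Then `θ a` is a product of `Q`-conjugates of
`θ g_1, ..., θ g_n`. -/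
theorem result (n k p : ℕ) (hp : p.Prime) (S : Subgroup (FreeGroup (Fin k)))
    (hS : Function.Bijective (LinearMap.rTensor (ZMod p)
      (AddMonoidHom.toIntLinearMap (MonoidHom.toAdditive (Abelianization.map S.subtype)))))
    (a : S) (g : Fin n → S)
    (hdep : ∃ c : Fin n → FreeGroup (Fin k),
      (a : FreeGroup (Fin k)) =
        (List.ofFn (fun i => c i * (g i : FreeGroup (Fin k)) * (c i)⁻¹)).prod)
    (Q : Type) [Group Q] (θ : S →* Q) (A : Subgroup Q) (hnormal : A.Normal)
    (hcomm : ∀ x ∈ A, ∀ y ∈ A, x * y = y * x) (hA : ∃ m : ℕ, A.index = p ^ m) :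
    ∃ c : Fin n → Q, θ a = (List.ofFn (fun i => c i * θ (g i) * (c i)⁻¹)).prod := by
  obtain ⟨s, hs, hcop⟩ := Pool.Agent.TH63.KQ.exists_basis S hp hS
  let w : Fin k → Coprod Q (FreeGroup (Fin k)) := fun j =>
    (Coprod.inl (θ (s j)))⁻¹ * Coprod.inr (s j : FreeGroup (Fin k))
  have hw : ∀ i j, Multiplicative.toAdd (Pool.Agent.TH63.KQ.eta Q k i (w j)) =
      Multiplicative.toAdd (Pool.Agent.TH63.KQ.expo k i (s j : FreeGroup (Fin k))) := by
    intro i j
    have h1 : (Pool.Agent.TH63.KQ.eta Q k i).comp Coprod.inr = Pool.Agent.TH63.KQ.expo k i := by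
      refine FreeGroup.ext_hom _ _ fun l => ?_
      simp [Pool.Agent.TH63.KQ.eta, Pool.Agent.TH63.KQ.expo]
    have h2 : Pool.Agent.TH63.KQ.eta Q k i (Coprod.inl (θ (s j))) = 1 := by
      simp [Pool.Agent.TH63.KQ.eta]
    show Multiplicative.toAdd (Pool.Agent.TH63.KQ.eta Q k i ((Coprod.inl (θ (s j)))⁻¹ *
      Coprod.inr (s j : FreeGroup (Fin k)))) = _
    rw [map_mul, map_inv, h2, inv_one, one_mul, ← h1]
    rfl
  have hdet : IsCoprime (Matrix.of fun i j : Fin k =>
      Multiplicative.toAdd (Pool.Agent.TH63.KQ.eta Q k i (w j))).det (p : ℤ) := by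
    have h1 : (Matrix.of fun i j : Fin k =>
        Multiplicative.toAdd (Pool.Agent.TH63.KQ.eta Q k i (w j))) = Matrix.of fun i j : Fin k =>
        Multiplicative.toAdd (Pool.Agent.TH63.KQ.expo k i (s j : FreeGroup (Fin k))) := by
      ext i j
      exact hw i j
    rw [h1]
    exact hcop
  let mk := QuotientGroup.mk' (Subgroup.normalClosure (Set.range w))
  have hmk : (mk.comp Coprod.inl).comp θ = (mk.comp Coprod.inr).comp S.subtype := by
    apply hs
    intro j
    show mk (Coprod.inl (θ (s j))) = mk (Coprod.inr (s j : FreeGroup (Fin k)))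
    refine QuotientGroup.eq.2 ?_
    exact Subgroup.subset_normalClosure ⟨j, rfl⟩
  have hmk' : ∀ x : S, mk (Coprod.inl (θ x)) = mk (Coprod.inr (x : FreeGroup (Fin k))) :=
    fun x => DFunLike.congr_fun hmk x
  obtain ⟨c, hc⟩ := hdep
  have hmain := Pool.Agent.TH63.KQ.power Q A hnormal hcomm p hp k w hdet hA (n + 1)
    (Fin.cons (θ a)⁻¹ fun i => θ (g i)) ⟨Fin.cons 1 fun i => mk (Coprod.inr (c i)), ?_⟩
  · obtain ⟨x, hx⟩ := hmain
    rw [List.ofFn_succ, List.prod_cons] at hx
    simp only [Fin.cons_zero, Fin.cons_succ] at hx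
    refine ⟨fun i => (x 0)⁻¹ * x i.succ, ?_⟩
    have h1 : (List.ofFn fun i : Fin n => x i.succ * θ (g i) * (x i.succ)⁻¹).prod =
        x 0 * θ a * (x 0)⁻¹ := by
      have h2 := eq_inv_of_mul_eq_one_right hx
      rw [h2]
      group
    have h3 : ∀ (m : ℕ) (y : Q) (v : Fin m → Q), (List.ofFn fun i => y * v i * y⁻¹).prod =
        y * (List.ofFn v).prod * y⁻¹ := by
      intro m y
      induction m with
      | zero =>
        intro v
        simp
      | succ m ih =>
        intro v
        rw [List.ofFn_succ, List.prod_cons, ih, List.ofFn_succ, List.prod_cons]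
        group
    have h4 : (fun i : Fin n => (x 0)⁻¹ * x i.succ * θ (g i) * ((x 0)⁻¹ * x i.succ)⁻¹) =
        fun i => (x 0)⁻¹ * (x i.succ * θ (g i) * (x i.succ)⁻¹) * ((x 0)⁻¹)⁻¹ := by
      funext i
      group
    rw [h4, h3, h1]
    group
  · rw [List.ofFn_succ, List.prod_cons]
    simp only [Fin.cons_zero, Fin.cons_succ]
    have h1 : (List.ofFn fun i : Fin n => mk (Coprod.inr (c i)) * mk (Coprod.inl (θ (g i))) *
        (mk (Coprod.inr (c i)))⁻¹).prod = mk (Coprod.inl (θ a)) := by
      rw [hmk' a, hc, map_list_prod, map_list_prod, List.map_ofFn, List.map_ofFn]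
      congr 2
      funext i
      simp [hmk']
    show 1 * mk (Coprod.inl (θ a)⁻¹) * 1⁻¹ * (List.ofFn fun i : Fin n => mk (Coprod.inr (c i)) *
      mk (Coprod.inl (θ (g i))) * (mk (Coprod.inr (c i)))⁻¹).prod = 1
    rw [h1]
    simp

end Pool.Agent.Results.MP_e9d015_al.AbelianByPowerQuotients
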