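import Mathlib

set_option autoImplicit false

open Monoid Polynomial
open scoped TensorProduct

namespace Pool.Agent.Results.MP_e9d015_al.FrobeniusSystems

universe u v

/-- pairs `(v, u)` with `v` in the `R`-module `V` and `u` a unit of `R`, with the product
`(v, u) (v', u') = (v + u v', u u')` -/
@[ext] structure Aff (R : Type u) (V : Type v) [CommRing R] [AddCommGroup V] [Module R V] where
  v : V
  u : Rˣ

namespace Aff

variable {R : Type*} {V : Type*} {W : Type*} [CommRing R] [AddCommGroup V] [Module R V]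
  [AddCommGroup W] [Module R W]

instance : Mul (Aff R V) := ⟨fun p q => ⟨p.v + (p.u : R) • q.v, p.u * q.u⟩⟩
instance : One (Aff R V) := ⟨⟨0, 1⟩⟩
instance : Inv (Aff R V) := ⟨fun p => ⟨-((p.u⁻¹ : Rˣ) : R) • p.v, p.u⁻¹⟩⟩

@[simp] lemma mul_v (p q : Aff R V) : (p * q).v = p.v + (p.u : R) • q.v := rfl
@[simp] lemma mul_u (p q : Aff R V) : (p * q).u = p.u * q.u := rfl
@[simp] lemma one_v : (1 : Aff R V).v = 0 := rfl
@[simp] lemma one_u : (1 : Aff R V).u = 1 := rfl
@[simp] lemma inv_v (p : Aff R V) : (p⁻¹).v = -((p.u⁻¹ : Rˣ) : R) • p.v := rfl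
@[simp] lemma inv_u (p : Aff R V) : (p⁻¹).u = p.u⁻¹ := rfl

instance : Group (Aff R V) where
  mul_assoc p q r := by
    ext
    · simp [smul_add, mul_smul, add_assoc]
    · simp [mul_assoc]
  one_mul p := by ext <;> simp
  mul_one p := by ext <;> simp
  inv_mul_cancel p := by ext <;> simp

/-- the second coordinate as a homomorphism -/
def uHom : Aff R V →* Rˣ where
  toFun p := p.u
  map_one' := rfl
  map_mul' _ _ := rfl

@[simp] lemma uHom_apply (p : Aff R V) : uHom p = p.u := rfl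

/-- functoriality in the module -/
def mapL (f : V →ₗ[R] W) : Aff R V →* Aff R W where
  toFun p := ⟨f p.v, p.u⟩
  map_one' := by ext <;> simp
  map_mul' p q := by ext <;> simp

@[simp] lemma mapL_v (f : V →ₗ[R] W) (p : Aff R V) : (mapL f p).v = f p.v := rfl
@[simp] lemma mapL_u (f : V →ₗ[R] W) (p : Aff R V) : (mapL f p).u = p.u := rfl

/-- functoriality in the ring -/
def mapR {S : Type*} [CommRing S] (f : R →+* S) (n : ℕ) : Aff R (Fin n → R) →* Aff S (Fin n → S) where
  toFun p := ⟨fun i => f (p.v i), Units.map (f : R →* S) p.u⟩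
  map_one' := by ext <;> simp
  map_mul' p q := by ext <;> simp

@[simp] lemma mapR_v {S : Type*} [CommRing S] (f : R →+* S) (n : ℕ) (p : Aff R (Fin n → R)) (i : Fin n) :
    (mapR f n p).v i = f (p.v i) := rfl
@[simp] lemma mapR_u {S : Type*} [CommRing S] (f : R →+* S) (n : ℕ) (p : Aff R (Fin n → R)) :
    (mapR f n p).u = Units.map (f : R →* S) p.u := rfl

/-- change of the ring and of the module -/
def chg {O A : Type*} [CommRing O] [AddCommGroup A] [Module O A] (f : O →+* R) (j : A →+ V)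
    (hj : ∀ r a, j (r • a) = f r • j a) : Aff O A →* Aff R V where
  toFun p := ⟨j p.v, Units.map (f : O →* R) p.u⟩
  map_one' := by ext <;> simp
  map_mul' p q := by
    ext
    · simp [hj]
    · simp

@[simp] lemma chg_v {O A : Type*} [CommRing O] [AddCommGroup A] [Module O A] (f : O →+* R)
    (j : A →+ V) (hj : ∀ r a, j (r • a) = f r • j a) (p : Aff O A) : (chg f j hj p).v = j p.v := rfl
@[simp] lemma chg_u {O A : Type*} [CommRing O] [AddCommGroup A] [Module O A] (f : O →+* R)
    (j : A →+ V) (hj : ∀ r a, j (r • a) = f r • j a) (p : Aff O A) :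
    (chg f j hj p).u = Units.map (f : O →* R) p.u := rfl

lemma conj_v (p q : Aff R V) (hq : q.u = 1) : (p * q * p⁻¹).v = (p.u : R) • q.v := by
  simp only [mul_v, mul_u, inv_v, hq, mul_one, neg_smul, smul_neg, smul_smul]
  simp

lemma conj_u (p q : Aff R V) : (p * q * p⁻¹).u = q.u := by
  simp

end Aff

/-- `φ : G → H` is conservative -/
def Conservative {G : Type u} {H : Type v} [Group G] [Group H] (φ : G →* H) : Prop :=
  ∀ (r : ℕ) (g : Fin r → G),
    (∃ h : Fin r → H, (List.ofFn fun i => h i * φ (g i) * (h i)⁻¹).prod = 1) →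
    ∃ k : Fin r → G, (List.ofFn fun i => k i * g i * (k i)⁻¹).prod = 1

/-- `G` with `n` free elements `t_0, ..., t_(n-1)` adjoined -/
abbrev Adj (G : Type u) [Group G] (n : ℕ) : Type u := Coprod G (FreeGroup (Fin n))

section core

variable {A : Type u} [AddCommGroup A] {G : Type u} [Group G] {n : ℕ}

/-- the exponent sums -/
def exv (G : Type u) [Group G] (n : ℕ) : Adj G n →* Multiplicative (Fin n → ℤ) :=
  Coprod.lift 1 (FreeGroup.lift fun i => Multiplicative.ofAdd (Pi.single i 1))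

/-- the matrix of the exponent sums `η_i (w_j)` -/
def expMat (w : Fin n → Adj G n) : Matrix (Fin n) (Fin n) ℤ :=
  Matrix.of fun j i => Multiplicative.toAdd (exv G n (w j)) i

variable {O : Type} [CommRing O] [Module O A] (e : G →* Aff O A)

/-- the homomorphism `G * F → Aff R V` with `t_i ↦ τ i` -/
noncomputable def Th {R : Type*} {V : Type*} [CommRing R] [AddCommGroup V] [Module R V] (f : O →+* R)
    (j : A →+ V) (hj : ∀ r a, j (r • a) = f r • j a) (τ : Fin n → Aff R V) : Adj G n →* Aff R V :=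
  Coprod.lift ((Aff.chg f j hj).comp e) (FreeGroup.lift τ)

/-- the derivatives -/
noncomputable def De {R : Type*} [CommRing R] (f : O →+* R) (ζ : Fin n → Rˣ) :
    Adj G n →* Aff R (Fin n → R) :=
  Th e f (0 : A →+ (Fin n → R)) (by simp) fun i => ⟨Pi.single i 1, ζ i⟩

/-- the derivatives with trivial signs -/
noncomputable def De0 (G : Type u) [Group G] (R : Type*) [CommRing R] (ζ : Fin n → Rˣ) :
    Adj G n →* Aff R (Fin n → R) :=
  Coprod.lift 1 (FreeGroup.lift fun i => ⟨Pi.single i 1, ζ i⟩)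

/-- the matrix of the derivatives -/
noncomputable def DM {R : Type*} [CommRing R] (f : O →+* R) (ζ : Fin n → Rˣ) (w : Fin n → Adj G n) :
    Matrix (Fin n) (Fin n) R := Matrix.of fun j i => (De e f ζ (w j)).v i

/-- the matrix of the derivatives with trivial signs -/
noncomputable def DM0 (R : Type*) [CommRing R] (ζ : Fin n → Rˣ) (w : Fin n → Adj G n) :
    Matrix (Fin n) (Fin n) R := Matrix.of fun j i => (De0 G R ζ (w j)).v i

lemma Th_inl {R : Type*} {V : Type*} [CommRing R] [AddCommGroup V] [Module R V] (f : O →+* R)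
    (j : A →+ V) (hj : ∀ r a, j (r • a) = f r • j a)
    (τ : Fin n → Aff R V) (g : G) : Th e f j hj τ (Coprod.inl g) = Aff.chg f j hj (e g) := by
  simp [Th]

lemma mapL_Th {R : Type*} {V W : Type*} [CommRing R] [AddCommGroup V] [Module R V]
    [AddCommGroup W] [Module R W] (f : O →+* R) (j : A →+ V) (hj : ∀ r a, j (r • a) = f r • j a)
    (j2 : A →+ W) (hj2 : ∀ r a, j2 (r • a) = f r • j2 a)
    (τ : Fin n → Aff R V) (l : V →ₗ[R] W) (hl : ∀ a, l (j a) = j2 a) :
    (Aff.mapL l).comp (Th e f j hj τ) = Th e f j2 hj2 (fun i => Aff.mapL l (τ i)) := by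
  apply Coprod.hom_ext
  · ext g <;> simp [Th, hl]
  · ext i <;> simp [Th]

lemma mapR_De {R S : Type*} [CommRing R] [CommRing S] (f : O →+* R) (h : R →+* S) (ζ : Fin n → Rˣ) :
    (Aff.mapR h n).comp (De e f ζ) = De e (h.comp f) (fun i => Units.map (h : R →* S) (ζ i)) := by
  apply Coprod.hom_ext
  · apply MonoidHom.ext
    intro g
    ext
    · simp [De, Th]
    · simp [De, Th]
  · ext i
    · simp [De, Th, Pi.single_apply, apply_ite h]
    · simp [De, Th]

lemma mapR_De0 {R S : Type*} [CommRing R] [CommRing S] (f : R →+* S) (ζ : Fin n → Rˣ) :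
    (Aff.mapR f n).comp (De0 G R ζ) = De0 G S (fun i => Units.map (f : R →* S) (ζ i)) := by
  apply Coprod.hom_ext
  · apply MonoidHom.ext
    intro g
    ext
    · simp [De0]
    · simp [De0]
  · ext i
    · simp [De0, Pi.single_apply, apply_ite f]
    · simp [De0]

lemma DM_map {R S : Type*} [CommRing R] [CommRing S] (f : O →+* R) (h : R →+* S) (ζ : Fin n → Rˣ)
    (w : Fin n → Adj G n) :
    (DM e (h.comp f) (fun i => Units.map (h : R →* S) (ζ i)) w).det = h (DM e f ζ w).det := by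
  rw [RingHom.map_det]
  congr 1
  ext j i
  simp only [DM, Matrix.of_apply, RingHom.mapMatrix_apply, Matrix.map_apply]
  rw [← mapR_De e f h ζ]
  rfl

lemma DM0_map {R S : Type*} [CommRing R] [CommRing S] (f : R →+* S) (ζ : Fin n → Rˣ)
    (w : Fin n → Adj G n) :
    (DM0 S (fun i => Units.map (f : R →* S) (ζ i)) w).det = f (DM0 R ζ w).det := by
  rw [RingHom.map_det]
  congr 1
  ext j i
  simp only [DM0, Matrix.of_apply, RingHom.mapMatrix_apply, Matrix.map_apply]
  rw [← mapR_De0 f ζ]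
  rfl

/-- the product of the units of the coefficients -/
noncomputable def sg : Adj G n →* Oˣ := Coprod.lift (Aff.uHom.comp e) 1

/-- monomials -/
def mon {Q : Type*} [CommGroup Q] (ζ : Fin n → Q) : Multiplicative (Fin n → ℤ) →* Q where
  toFun α := ∏ i, ζ i ^ (Multiplicative.toAdd α i)
  map_one' := by simp
  map_mul' α β := by
    rw [← Finset.prod_mul_distrib]
    exact Finset.prod_congr rfl fun i _ => by simp [zpow_add]

lemma mon_single {Q : Type*} [CommGroup Q] (ζ : Fin n → Q) (i : Fin n) :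
    mon ζ (Multiplicative.ofAdd (Pi.single i 1)) = ζ i := by
  simp only [mon, MonoidHom.coe_mk, OneHom.coe_mk, toAdd_ofAdd]
  rw [Finset.prod_eq_single i]
  · simp
  · intro j _ hj
    simp [hj]
  · simp

lemma Th_u {R : Type*} {V : Type*} [CommRing R] [AddCommGroup V] [Module R V] (f : O →+* R)
    (j : A →+ V) (hj : ∀ r a, j (r • a) = f r • j a)
    (τ : Fin n → Aff R V) (w : Adj G n) :
    (Th e f j hj τ w).u = Units.map (f : O →* R) (sg e w) *
      mon (fun i => (τ i).u) (exv G n w) := by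
  have h : Aff.uHom.comp (Th e f j hj τ) =
      ((Units.map (f : O →* R)).comp (sg e)) *
        (mon (fun i => (τ i).u)).comp (exv G n) := by
    apply Coprod.hom_ext
    · apply MonoidHom.ext
      intro g
      simp [Th, sg, exv]
    · apply FreeGroup.ext_hom
      intro i
      simp [Th, sg, exv, mon_single]
  exact DFunLike.congr_fun h w

lemma De0_u {R : Type*} [CommRing R] (ζ : Fin n → Rˣ) (w : Adj G n) :
    (De0 G R ζ w).u = mon ζ (exv G n w) := by
  have h : Aff.uHom.comp (De0 G R ζ) = (mon ζ).comp (exv G n) := by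
    apply Coprod.hom_ext
    · apply MonoidHom.ext
      intro g
      simp [De0, exv]
    · apply FreeGroup.ext_hom
      intro i
      simp [De0, exv, mon_single]
  exact DFunLike.congr_fun h w

end core

lemma prod_zpow_sum {Q : Type*} [CommGroup Q] {n : ℕ} (b : Q) (m : Fin n → ℤ) :
    b ^ (∑ i, m i) = ∏ i, b ^ (m i) := by
  classical
  have h : ∀ s : Finset (Fin n), b ^ (∑ i ∈ s, m i) = ∏ i ∈ s, b ^ (m i) := by
    intro s
    induction s using Finset.induction_on with
    | empty => simp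
    | insert a s ha ih => rw [Finset.sum_insert ha, Finset.prod_insert ha, zpow_add, ih]
  exact h _

/-! ### Solving the equations -/

/-- conditions on a ring `R` with a ring homomorphism `f : O → R` and units `ω` of `O`, `ζ` of `R` -/
structure Test {O : Type} [CommRing O] (ω : Oˣ) {R : Type} [CommRing R] (f : O →+* R) (ζ : Rˣ) : Prop where
  dvd : ∀ r : R, r ≠ 0 → ∃ m : ℤ, m ≠ 0 ∧ r ∣ (m : R)
  free : Module.Free ℤ R
  psi : ∃ ψ : R →+ O, (∀ x r, ψ (f x * r) = x * ψ r) ∧ ∀ n : ℤ, ∃ k : ℤ, ψ ((ζ ^ n : Rˣ) : R) = ((ω ^ k : Oˣ) : O)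

section solve

variable {A : Type u} [AddCommGroup A]

/-- a divisible group containing `A` -/
abbrev Hull (A : Type u) [AddCommGroup A] : Type u := CharacterModule A → AddCircle (1 : ℚ)

/-- the embedding of `A` -/
def toHull (A : Type u) [AddCommGroup A] : A →+ Hull A where
  toFun a := fun χ => χ a
  map_zero' := by ext χ; exact map_zero χ
  map_add' a b := by ext χ; exact map_add χ a b

lemma toHull_eq_zero {a : A} (h : toHull A a = 0) : a = 0 :=
  CharacterModule.eq_zero_of_character_apply (fun c => congrFun h c)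

lemma hull_div (m : ℤ) (hm : m ≠ 0) (x : Hull A) : ∃ y : Hull A, m • y = x :=
  ⟨fun χ => DivisibleBy.div (x χ) m, by ext χ; exact DivisibleBy.div_cancel (x χ) hm⟩

/-- the coefficients: additive maps from `R` to the divisible group -/
structure VV (R : Type) [CommRing R] (A : Type u) [AddCommGroup A] : Type u where
  f : R →+ Hull A

namespace VV

variable {R : Type} [CommRing R]

lemma f_injective : Function.Injective (VV.f : VV R A → (R →+ Hull A)) := by
  rintro ⟨x⟩ ⟨y⟩ h
  exact congrArg VV.mk h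

instance : Zero (VV R A) := ⟨⟨0⟩⟩
instance : Add (VV R A) := ⟨fun x y => ⟨x.f + y.f⟩⟩
instance : Neg (VV R A) := ⟨fun x => ⟨-x.f⟩⟩
instance : Sub (VV R A) := ⟨fun x y => ⟨x.f - y.f⟩⟩
instance : SMul ℕ (VV R A) := ⟨fun n x => ⟨n • x.f⟩⟩
instance : SMul ℤ (VV R A) := ⟨fun n x => ⟨n • x.f⟩⟩

instance : AddCommGroup (VV R A) :=
  f_injective.addCommGroup _ rfl (fun _ _ => rfl) (fun _ => rfl) (fun _ _ => rfl)
    (fun _ _ => rfl) (fun _ _ => rfl)

instance : Module R (VV R A) where
  smul r x := ⟨x.f.comp (AddMonoidHom.mulLeft r)⟩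
  one_smul x := by apply f_injective; ext y; show x.f (1 * y) _ = x.f y _; rw [one_mul]
  mul_smul r s x := by
    apply f_injective; ext y
    show x.f (r * s * y) _ = x.f (s * (r * y)) _
    rw [show r * s * y = s * (r * y) by ring]
  smul_zero r := by apply f_injective; ext y; rfl
  smul_add r x y := by apply f_injective; ext y; rfl
  add_smul r s x := by
    apply f_injective; ext y
    show x.f ((r + s) * y) _ = (x.f (r * y) + x.f (s * y)) _
    rw [add_mul, map_add]
  zero_smul x := by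
    apply f_injective; ext y
    show x.f (0 * y) _ = _
    rw [zero_mul, map_zero]; rfl

lemma smul_f (r : R) (x : VV R A) (y : R) : (r • x).f y = x.f (r * y) := rfl

/-- evaluation at `1` -/
def ev1 : VV R A →+ Hull A where
  toFun x := x.f 1
  map_zero' := rfl
  map_add' _ _ := rfl

end VV

lemma VV_div (R : Type) [CommRing R] [Module.Free ℤ R] (m : ℤ) (hm : m ≠ 0) (x : VV R A) :
    ∃ y : VV R A, m • y = x := by
  let b := Module.Free.chooseBasis ℤ R
  choose z hz using fun i => hull_div m hm (x.f (b i))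
  let y : R →ₗ[ℤ] Hull A := b.constr ℤ z
  refine ⟨⟨y.toAddMonoidHom⟩, ?_⟩
  apply VV.f_injective
  have h : (m • y : R →ₗ[ℤ] Hull A) = x.f.toIntLinearMap := by
    apply b.ext
    intro i
    rw [LinearMap.smul_apply, Module.Basis.constr_basis, hz]
    rfl
  ext r : 1
  exact DFunLike.congr_fun h r

lemma VV_surj {O : Type} [CommRing O] {ω : Oˣ} {R : Type} [CommRing R] {f : O →+* R} {ζ : Rˣ}
    (hT : Test ω f ζ) (D : R) (hD : D ≠ 0) (κ : VV R A) :
    ∃ x : VV R A, D • x = κ := by
  have := hT.free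
  obtain ⟨m, hm, r', hr'⟩ := hT.dvd D hD
  obtain ⟨y, hy⟩ := VV_div R m hm κ
  refine ⟨r' • y, ?_⟩
  rw [smul_smul, ← hr', Int.cast_smul_eq_zsmul, hy]

variable {O : Type} [CommRing O] [Module O A]

/-- the embedding of `A` in the coefficients -/
def jj {R : Type} [CommRing R] (ψ : R →+ O) : A →+ VV R A where
  toFun a := ⟨(toHull A).comp ((AddMonoidHom.flip (smulAddHom O A) a).comp ψ)⟩
  map_zero' := by
    apply VV.f_injective
    ext r : 1
    show toHull A (ψ r • (0 : A)) = 0
    rw [smul_zero, map_zero]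
  map_add' a b := by
    apply VV.f_injective
    ext r : 1
    show toHull A (ψ r • (a + b)) = toHull A (ψ r • a) + toHull A (ψ r • b)
    rw [smul_add, map_add]

lemma jj_f {R : Type} [CommRing R] (ψ : R →+ O) (a : A) (r : R) :
    (jj ψ a).f r = toHull A (ψ r • a) := rfl

lemma jj_smul {R : Type} [CommRing R] (f : O →+* R) (ψ : R →+ O) (hψ : ∀ x r, ψ (f x * r) = x * ψ r)
    (x : O) (a : A) : jj ψ (x • a) = f x • jj ψ a := by
  apply VV.f_injective
  ext r : 1
  show toHull A (ψ r • (x • a)) = toHull A (ψ (f x * r) • a)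
  rw [hψ, smul_smul, mul_comm]

variable {G : Type u} [Group G] {n : ℕ} (e : G →* Aff O A)

lemma solve_linear {ω : Oˣ} {R : Type} [CommRing R] {f : O →+* R} {ζ : Rˣ}
    (hT : Test ω f ζ) (D : Matrix (Fin n) (Fin n) R)
    (hD : D.det ≠ 0) (κ : Fin n → VV R A) : ∃ x : Fin n → VV R A, ∀ j, ∑ i, D j i • x i = κ j := by
  choose y hy using fun j => VV_surj hT D.det hD (κ j)
  refine ⟨fun i => ∑ k, D.adjugate i k • y k, fun j => ?_⟩
  have h1 : ∀ i, D j i • ∑ k, D.adjugate i k • y k = ∑ k, (D j i * D.adjugate i k) • y k := by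
    intro i
    rw [Finset.smul_sum]
    exact Finset.sum_congr rfl fun k _ => by rw [smul_smul]
  rw [Finset.sum_congr rfl fun i _ => h1 i, Finset.sum_comm]
  have h2 : ∀ k, ∑ i, (D j i * D.adjugate i k) • y k = (D * D.adjugate) j k • y k := by
    intro k
    rw [Matrix.mul_apply, Finset.sum_smul]
  rw [Finset.sum_congr rfl fun k _ => h2 k, Matrix.mul_adjugate]
  rw [Finset.sum_eq_single j]
  · rw [Matrix.smul_apply, Matrix.one_apply_eq, smul_eq_mul, mul_one, hy]
  · intro k _ hk
    rw [Matrix.smul_apply, Matrix.one_apply_ne (Ne.symm hk), smul_zero, zero_smul]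
  · simp

lemma exists_sol {ω : Oˣ} {R : Type} [CommRing R] {f : O →+* R} {ζ0 : Rˣ} (hT : Test ω f ζ0)
    (ψ : R →+ O) (hψ : ∀ x r, ψ (f x * r) = x * ψ r) (ζ : Fin n → Rˣ)
    (w : Fin n → Adj G n)
    (hu : ∀ j, Units.map (f : O →* R) (sg e (w j)) * mon ζ (exv G n (w j)) = 1)
    (hD : (DM e f ζ w).det ≠ 0) :
    ∃ x : Fin n → VV R A, ∀ j, Th e f (jj ψ) (jj_smul f ψ hψ) (fun i => ⟨x i, ζ i⟩) (w j) = 1 := by
  let j' : A →+ ((Fin n → R) × VV R A) := (AddMonoidHom.inr (Fin n → R) (VV R A)).comp (jj ψ)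
  have hj' : ∀ r a, j' (r • a) = f r • j' a := by
    intro r a
    show ((0 : Fin n → R), jj ψ (r • a)) = f r • ((0 : Fin n → R), jj ψ a)
    rw [jj_smul f ψ hψ, Prod.smul_mk, smul_zero]
  let T : Fin n → Aff R ((Fin n → R) × VV R A) := fun i => ⟨(Pi.single i 1, 0), ζ i⟩
  let Θ : Adj G n →* Aff R ((Fin n → R) × VV R A) := Th e f j' hj' T
  have h1 : ∀ l i, (DM e f ζ w) l i = (Θ (w l)).v.1 i := by
    intro l i
    have h := mapL_Th e f j' hj' (0 : A →+ (Fin n → R)) (by simp) T
      (LinearMap.fst R (Fin n → R) (VV R A)) (fun a => rfl)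
    have h3 : (fun i => Aff.mapL (LinearMap.fst R (Fin n → R) (VV R A)) (T i)) =
        fun i => ⟨Pi.single i 1, ζ i⟩ := by
      funext i
      ext <;> simp [T]
    rw [h3] at h
    have h4 := congrArg Aff.v (DFunLike.congr_fun h (w l))
    have h5 : (De e f ζ (w l)).v = (Θ (w l)).v.1 := h4.symm
    simp only [DM, Matrix.of_apply, h5]
  obtain ⟨x, hx⟩ := solve_linear hT (DM e f ζ w) hD (fun l => -(Θ (w l)).v.2)
  refine ⟨x, fun l => ?_⟩
  let F : ((Fin n → R) × VV R A) →ₗ[R] VV R A :=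
    LinearMap.coprod (Fintype.linearCombination R x) LinearMap.id
  have h := mapL_Th e f j' hj' (jj ψ) (jj_smul f ψ hψ) T F (fun a => by simp [F, j'])
  have h3 : (fun i => Aff.mapL F (T i)) = fun i => ⟨x i, ζ i⟩ := by
    funext i
    ext1
    · simp [F, T]
    · simp [T]
  rw [h3] at h
  have h4 := DFunLike.congr_fun h (w l)
  rw [← h4]
  ext1
  · show F (Θ (w l)).v = 0
    have : F (Θ (w l)).v = ∑ i, (Θ (w l)).v.1 i • x i + (Θ (w l)).v.2 := by
      simp [F, Fintype.linearCombination_apply]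
    rw [this]
    have h6 : ∑ i, (Θ (w l)).v.1 i • x i = -(Θ (w l)).v.2 := by
      rw [← hx l]
      exact Finset.sum_congr rfl fun i _ => by rw [h1]
    rw [h6]; simp
  · show (Th e f j' hj' T (w l)).u = 1
    rw [Th_u]
    exact hu l

end solve

/-! ### The extension -/

/-- the extension of `G` by the equations `w_j = 1` -/
abbrev Ext (G : Type u) [Group G] {n : ℕ} (w : Fin n → Adj G n) : Type u :=
  Adj G n ⧸ Subgroup.normalClosure (Set.range w)

/-- the natural homomorphism -/
def toExt (G : Type u) [Group G] {n : ℕ} (w : Fin n → Adj G n) : G →* Ext G w :=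
  (QuotientGroup.mk' (Subgroup.normalClosure (Set.range w))).comp Coprod.inl

lemma transfer {G : Type u} [Group G] {n : ℕ} {w : Fin n → Adj G n} {Q : Type*} [Group Q]
    (F : Adj G n →* Q) (hF : ∀ j, F (w j) = 1) {r : ℕ} (g : Fin r → G)
    (h : ∃ h : Fin r → Ext G w, (List.ofFn fun i => h i * toExt G w (g i) * (h i)⁻¹).prod = 1) :
    ∃ k : Fin r → Adj G n,
      (List.ofFn fun i => F (k i) * F (Coprod.inl (g i)) * (F (k i))⁻¹).prod = 1 := by
  obtain ⟨h, hh⟩ := h
  choose k hk using fun i =>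
    QuotientGroup.mk'_surjective (Subgroup.normalClosure (Set.range w)) (h i)
  refine ⟨k, ?_⟩
  have h1 : (QuotientGroup.mk' (Subgroup.normalClosure (Set.range w)))
      (List.ofFn fun i => k i * Coprod.inl (g i) * (k i)⁻¹).prod = 1 := by
    rw [map_list_prod, List.map_ofFn, ← hh]
    congr 2
    funext i
    simp only [Function.comp_apply, map_mul, map_inv, hk, toExt, MonoidHom.comp_apply]
  have h2 : (List.ofFn fun i => k i * Coprod.inl (g i) * (k i)⁻¹).prod ∈
      Subgroup.normalClosure (Set.range w) := by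
    rw [← QuotientGroup.eq_one_iff]; exact h1
  have h3 : Subgroup.normalClosure (Set.range w) ≤ F.ker := by
    apply Subgroup.normalClosure_le_normal
    rintro _ ⟨j, rfl⟩
    exact hF j
  have h4 : F (List.ofFn fun i => k i * Coprod.inl (g i) * (k i)⁻¹).prod = 1 := h3 h2
  rw [map_list_prod, List.map_ofFn] at h4
  rw [← h4]
  congr 2
  funext i
  simp

/-! ### Rotations -/

section rot

variable {R : Type*} {V : Type*} [CommRing R] [AddCommGroup V] [Module R V]

lemma prod_of_u_one (l : List (Aff R V)) (h : ∀ p ∈ l, p.u = 1) :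
    l.prod.u = 1 ∧ l.prod.v = (l.map Aff.v).sum := by
  induction l with
  | nil => simp
  | cons a l ih =>
    obtain ⟨h1, h2⟩ := ih (fun p hp => h p (by simp [hp]))
    have ha := h a (by simp)
    simp [ha, h1, h2]

lemma ofFn_of_u_one {r : ℕ} (p : Fin r → Aff R V) (h : ∀ i, (p i).u = 1) :
    (List.ofFn p).prod.u = 1 ∧ (List.ofFn p).prod.v = ∑ i, (p i).v := by
  have h0 : ∀ q ∈ List.ofFn p, q.u = 1 := by
    intro q hq
    obtain ⟨i, rfl⟩ := (List.mem_ofFn' _ _).1 hq
    exact h i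
  obtain ⟨h1, h2⟩ := prod_of_u_one _ h0
  refine ⟨h1, ?_⟩
  rw [h2, List.map_ofFn, List.sum_ofFn]
  rfl

end rot

section rotations

variable {A : Type u} [AddCommGroup A] {G : Type u} [Group G] {n : ℕ} {O : Type} [CommRing O]
  [Module O A] (e : G →* Aff O A) (ω : Oˣ) (he : ∀ g, (e g).u ∈ Subgroup.zpowers ω)

include he in
lemma sg_mem (k : Adj G n) : sg e k ∈ Subgroup.zpowers ω := by
  induction k using Coprod.induction_on with
  | inl g =>
    have : sg e (Coprod.inl g : Adj G n) = (e g).u := by simp [sg]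
    rw [this]; exact he g
  | inr x =>
    have : sg e (Coprod.inr x : Adj G n) = 1 := by simp [sg]
    rw [this]; exact Subgroup.one_mem _
  | mul x y hx hy => rw [map_mul]; exact Subgroup.mul_mem _ hx hy

/-- the data used below -/
def Data (w : Fin n → Adj G n) : Prop :=
  ∃ (R : Type) (_ : CommRing R) (f : O →+* R) (ζ0 : Rˣ) (ζ : Fin n → Rˣ), Test ω f ζ0 ∧
      (∀ i, ∃ m : ℤ, ζ i = ζ0 ^ m) ∧
      (∀ j, Units.map (f : O →* R) (sg e (w j)) * mon ζ (exv G n (w j)) = 1) ∧
      (DM e f ζ w).det ≠ 0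

include he in
lemma rotations (w : Fin n → Adj G n) (hE : Data e ω w) {r : ℕ} (g : Fin r → G)
    (hg : ∀ i, (e (g i)).u = 1)
    (h : ∃ h : Fin r → Ext G w, (List.ofFn fun i => h i * toExt G w (g i) * (h i)⁻¹).prod = 1) :
    ∃ k : Fin r → ℤ, ∑ i, ((ω ^ k i : Oˣ) : O) • (e (g i)).v = 0 := by
  obtain ⟨R, _, f, ζ0, ζ, hT, hζ, hu, hD⟩ := hE
  obtain ⟨ψ, hψ, hψ2⟩ := hT.psi
  obtain ⟨x, hx⟩ := exists_sol e hT ψ hψ ζ w hu hD
  let T : Fin n → Aff R (VV R A) := fun i => ⟨x i, ζ i⟩
  obtain ⟨k, hk⟩ := transfer (Th e f (jj ψ) (jj_smul f ψ hψ) T) hx g h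
  have hmon : ∀ α : Multiplicative (Fin n → ℤ), ∃ N : ℤ, mon ζ α = ζ0 ^ N := by
    intro α
    choose m hm using hζ
    refine ⟨∑ i, m i * (Multiplicative.toAdd α i), ?_⟩
    simp only [mon, MonoidHom.coe_mk, OneHom.coe_mk, hm, ← zpow_mul]
    exact (prod_zpow_sum ζ0 _).symm
  have h1 : ∀ i, (Th e f (jj ψ) (jj_smul f ψ hψ) T (Coprod.inl (g i))).u = 1 := by
    intro i
    rw [Th_inl, Aff.chg_u, hg i, map_one]
  have h2 := (ofFn_of_u_one (fun i => Th e f (jj ψ) (jj_smul f ψ hψ) T (k i) *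
    Th e f (jj ψ) (jj_smul f ψ hψ) T (Coprod.inl (g i)) * (Th e f (jj ψ) (jj_smul f ψ hψ) T (k i))⁻¹)
    (fun i => by rw [Aff.conj_u]; exact h1 i)).2
  rw [hk] at h2
  have h3 : ∀ i, ∃ s : ℤ, VV.ev1 (Th e f (jj ψ) (jj_smul f ψ hψ) T (k i) *
      Th e f (jj ψ) (jj_smul f ψ hψ) T (Coprod.inl (g i)) *
        (Th e f (jj ψ) (jj_smul f ψ hψ) T (k i))⁻¹).v =
      toHull A (((ω ^ s : Oˣ) : O) • (e (g i)).v) := by
    intro i
    rw [Aff.conj_v _ _ (h1 i), Th_inl, Aff.chg_v]
    obtain ⟨l, hl⟩ := Subgroup.mem_zpowers_iff.1 (sg_mem e ω he (k i))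
    obtain ⟨N, hN⟩ := hmon (exv G n (k i))
    have hN' : mon (fun i => (T i).u) (exv G n (k i)) = ζ0 ^ N := hN
    obtain ⟨s, hs⟩ := hψ2 N
    refine ⟨l + s, ?_⟩
    show toHull A (ψ (((Th e f (jj ψ) (jj_smul f ψ hψ) T (k i)).u : R) * 1) • (e (g i)).v) = _
    rw [mul_one, Th_u, hN', ← hl, Units.val_mul]
    have h4 : ((Units.map (f : O →* R) (ω ^ l) : Rˣ) : R) = f ((ω ^ l : Oˣ) : O) := rfl
    rw [h4, hψ, hs, zpow_add, Units.val_mul]
  choose s hs' using h3
  refine ⟨s, ?_⟩
  apply toHull_eq_zero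
  have h5 := congrArg VV.ev1 h2
  rw [map_sum, Finset.sum_congr rfl (fun i _ => hs' i)] at h5
  rw [map_sum, ← h5]
  exact map_zero _

lemma u_one (w : Fin n → Adj G n) (hE : Data e ω w) {r : ℕ} (g : Fin r → G)
    (h : ∃ h : Fin r → Ext G w, (List.ofFn fun i => h i * toExt G w (g i) * (h i)⁻¹).prod = 1) :
    (e (List.ofFn g).prod).u = 1 := by
  obtain ⟨R, _, f, ζ0, ζ, hT, hζ, hu, hD⟩ := hE
  obtain ⟨ψ, hψ, hψ2⟩ := hT.psi
  let F : Adj G n →* Rˣ := Aff.uHom.comp (De e f ζ)
  have hF : ∀ j, F (w j) = 1 := by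
    intro j
    show (De e f ζ (w j)).u = 1
    rw [De, Th_u]; exact hu j
  obtain ⟨k, hk⟩ := transfer F hF g h
  have h1 : ∀ x, F (Coprod.inl x) = Units.map (f : O →* R) (e x).u := by
    intro x
    show (De e f ζ (Coprod.inl x)).u = _
    rw [De, Th_inl, Aff.chg_u]
  have h2 : Units.map (f : O →* R) (e (List.ofFn g).prod).u = 1 := by
    rw [← h1, map_list_prod, map_list_prod, List.map_ofFn, List.map_ofFn, ← hk]
    congr 2
    funext i
    simp
  obtain ⟨k0, hk0⟩ := hψ2 0
  have h3 : ∀ x : O, f x = 1 → x = 1 := by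
    intro x hx
    have h4 := hψ x 1
    rw [hx, one_mul] at h4
    have h5 : ψ 1 = ((ω ^ k0 : Oˣ) : O) := by simpa using hk0
    rw [h5] at h4
    have h6 : ((ω ^ k0 : Oˣ) : O) * ((ω ^ (-k0) : Oˣ) : O) = 1 := by
      rw [← Units.val_mul, ← zpow_add]; simp
    calc x = x * (((ω ^ k0 : Oˣ) : O) * ((ω ^ (-k0) : Oˣ) : O)) := by rw [h6, mul_one]
      _ = (x * ((ω ^ k0 : Oˣ) : O)) * ((ω ^ (-k0) : Oˣ) : O) := by ring
      _ = 1 := by rw [← h4, h6]
  ext1
  exact h3 _ (congrArg Units.val h2)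

end rotations

/-! ### The other elements -/

lemma adjust {O : Type} [CommRing O] {A : Type u} [AddCommGroup A] [Module O A] (S : A → Prop) :
    ∀ (r : ℕ) (g : Fin r → Aff O A),
    (∀ i, (g i).u = 1 ∨ ∀ c : A, S c → ∃ b : A, b - ((g i).u : O) • b = c) → (∃ i, (g i).u ≠ 1) →
    ∀ c : A, S c → ∃ k : Fin r → A,
      (List.ofFn fun i => (⟨k i, 1⟩ : Aff O A) * g i * (⟨k i, 1⟩ : Aff O A)⁻¹).prod =
        ⟨c, 1⟩ * (List.ofFn g).prod := by
  intro r
  induction r with
  | zero => rintro g - ⟨i, -⟩; exact i.elim0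
  | succ r ih =>
    intro g hd hg c hc
    by_cases h0 : (g 0).u = 1
    · obtain ⟨i, hi⟩ := hg
      have hi0 : i ≠ 0 := by rintro rfl; exact hi h0
      obtain ⟨j, rfl⟩ := Fin.exists_succ_eq.2 hi0
      obtain ⟨k, hk⟩ := ih (fun l => g l.succ) (fun l => hd l.succ) ⟨j, hi⟩ c hc
      refine ⟨Fin.cons 0 k, ?_⟩
      rw [List.ofFn_succ, List.prod_cons, List.ofFn_succ, List.prod_cons]
      simp only [Fin.cons_zero, Fin.cons_succ]
      rw [hk, ← mul_assoc, ← mul_assoc]
      congr 1
      ext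
      · simp [h0, add_comm]
      · simp
    · obtain ⟨b, hb⟩ := (hd 0).resolve_left h0 c hc
      refine ⟨Fin.cons b (fun _ => 0), ?_⟩
      rw [List.ofFn_succ, List.prod_cons, List.ofFn_succ, List.prod_cons]
      simp only [Fin.cons_zero, Fin.cons_succ]
      rw [← mul_assoc]
      congr 1
      · ext
        · simp [← hb]
          abel
        · simp
      · congr 2
        funext i
        ext <;> simp

/-! ### Commutative quotients -/

section comm

variable {A : Type u} [AddCommGroup A] {G : Type u} [Group G] {n : ℕ}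

lemma solve_comm {Q : Type} [CommGroup Q] (hQ : ∀ n : ℤ, n ≠ 0 → ∀ a : Q, ∃ z : Q, z ^ n = a)
    (M : Matrix (Fin n) (Fin n) ℤ) (hM : M.det ≠ 0) (a : Fin n → Q) :
    ∃ z : Fin n → Q, ∀ j, ∏ i, z i ^ (M j i) = a j := by
  choose b hb using fun j => hQ M.det hM (a j)
  refine ⟨fun i => ∏ k, b k ^ (M.adjugate i k), fun j => ?_⟩
  have h1 : ∀ i, (∏ k, b k ^ (M.adjugate i k)) ^ (M j i) = ∏ k, b k ^ (M j i * M.adjugate i k) := by
    intro i
    rw [← Finset.prod_zpow]
    exact Finset.prod_congr rfl fun k _ => by rw [← zpow_mul, mul_comm]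
  rw [Finset.prod_congr rfl fun i _ => h1 i, Finset.prod_comm]
  have h2 : ∀ k, ∏ i, b k ^ (M j i * M.adjugate i k) = b k ^ ((M * M.adjugate) j k) := by
    intro k
    rw [Matrix.mul_apply]
    exact (prod_zpow_sum (b k) _).symm
  rw [Finset.prod_congr rfl fun k _ => h2 k, Matrix.mul_adjugate]
  rw [Finset.prod_eq_single j]
  · rw [Matrix.smul_apply, Matrix.one_apply_eq, smul_eq_mul, mul_one, hb]
  · intro k _ hk
    rw [Matrix.smul_apply, Matrix.one_apply_ne (Ne.symm hk), smul_zero, zpow_zero]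
  · simp

lemma abelian_test (w : Fin n → Adj G n) (hs : (expMat w).det ≠ 0) {Q : Type} [CommGroup Q]
    (hQ : ∀ n : ℤ, n ≠ 0 → ∀ a : Q, ∃ z : Q, z ^ n = a) (f : G →* Q) {r : ℕ} (g : Fin r → G)
    (h : ∃ h : Fin r → Ext G w, (List.ofFn fun i => h i * toExt G w (g i) * (h i)⁻¹).prod = 1) :
    f (List.ofFn g).prod = 1 := by
  obtain ⟨z, hz⟩ := solve_comm hQ (expMat w) hs
    (fun j => (Coprod.lift f (1 : FreeGroup (Fin n) →* Q) (w j))⁻¹)
  let F : Adj G n →* Q := Coprod.lift f (FreeGroup.lift z)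
  have hF : F = Coprod.lift f (1 : FreeGroup (Fin n) →* Q) * (mon z).comp (exv G n) := by
    apply Coprod.hom_ext
    · apply MonoidHom.ext
      intro g
      simp [F, exv]
    · apply FreeGroup.ext_hom
      intro i
      simp [F, exv, mon_single]
  have hFw : ∀ j, F (w j) = 1 := by
    intro j
    rw [hF, MonoidHom.mul_apply, MonoidHom.comp_apply]
    have h1 : mon z (exv G n (w j)) = ∏ i, z i ^ (expMat w j i) := rfl
    rw [h1, hz, mul_inv_cancel]
  obtain ⟨k, hk⟩ := transfer F hFw g h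
  rw [map_list_prod, List.map_ofFn, ← hk]
  congr 2
  funext i
  simp [F]

lemma circle_div (n : ℤ) (hn : n ≠ 0) (a : Multiplicative (AddCircle (1 : ℚ))) :
    ∃ z : Multiplicative (AddCircle (1 : ℚ)), z ^ n = a :=
  ⟨Multiplicative.ofAdd (DivisibleBy.div (Multiplicative.toAdd a) n), by
    apply Multiplicative.toAdd.injective
    rw [toAdd_zpow]
    exact DivisibleBy.div_cancel (Multiplicative.toAdd a) hn⟩

end comm

/-! ### Rings of cyclotomic integers -/

section cyclo

variable (p : ℕ) [hp : Fact p.Prime]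

/-- the ring generated by a root of unity of order `p ^ (c + 1)` -/
abbrev Cy (p c : ℕ) : Type := AdjoinRoot (cyclotomic (p ^ (c + 1)) ℤ)

instance (c : ℕ) : IsDomain (Cy p c) :=
  AdjoinRoot.isDomain_of_prime (cyclotomic.irreducible (pow_pos hp.out.pos _)).prime

/-- the root -/
noncomputable def rr (p c : ℕ) : Cy p c := AdjoinRoot.root (cyclotomic (p ^ (c + 1)) ℤ)

lemma root_sum (c : ℕ) :
    ∑ i ∈ Finset.range p, ((rr p c) ^ (p ^ c)) ^ i = 0 := by
  have h : AdjoinRoot.mk (cyclotomic (p ^ (c + 1)) ℤ) (cyclotomic (p ^ (c + 1)) ℤ) = 0 :=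
    AdjoinRoot.mk_self
  have h2 : (cyclotomic (p ^ (c + 1)) ℤ) = ∑ i ∈ Finset.range p, (X ^ (p ^ c)) ^ i :=
    cyclotomic_prime_pow_eq_geom_sum hp.out
  have h3 : AdjoinRoot.mk (cyclotomic (p ^ (c + 1)) ℤ)
      (∑ i ∈ Finset.range p, (X ^ (p ^ c)) ^ i) = 0 := by rw [← h2]; exact h
  simp only [map_sum, map_pow, AdjoinRoot.mk_X] at h3
  exact h3

lemma root_pow_card (c : ℕ) : (rr p c) ^ (p ^ (c + 1)) = 1 := by
  have h := mul_geom_sum ((rr p c) ^ (p ^ c)) p
  rw [root_sum, mul_zero, ← pow_mul, ← pow_succ] at h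
  exact (sub_eq_zero.1 h.symm)

/-- the root as a unit -/
noncomputable def rt (c : ℕ) : (Cy p c)ˣ :=
  Units.ofPowEqOne (rr p c) (p ^ (c + 1)) (root_pow_card p c)
    (pow_pos hp.out.pos _).ne'

@[simp] lemma rt_val (c : ℕ) : ((rt p c : (Cy p c)ˣ) : Cy p c) =
    rr p c := rfl

lemma rt_pow (c : ℕ) : (rt p c) ^ (p ^ (c + 1)) = 1 := by
  ext1
  rw [Units.val_pow_eq_pow_val, rt_val, root_pow_card, Units.val_one]

lemma cy_free (c : ℕ) : Module.Free ℤ (Cy p c) :=
  Module.Free.of_basis (AdjoinRoot.powerBasis' (cyclotomic.monic _ ℤ)).basis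

instance (c : ℕ) : CharZero (Cy p c) := by
  have := cy_free p c
  refine charZero_of_inj_zero fun m hm => ?_
  have h : (m : ℤ) • (1 : Cy p c) = 0 := by
    rw [zsmul_eq_mul, mul_one]; exact_mod_cast hm
  rcases smul_eq_zero.1 h with h | h
  · exact_mod_cast h
  · exact absurd h one_ne_zero

lemma root_pow_ne (c : ℕ) : (rr p c) ^ (p ^ c) ≠ 1 := by
  intro h
  have h1 := root_sum p c
  rw [h] at h1
  simp only [one_pow, Finset.sum_const, Finset.card_range, nsmul_eq_mul, mul_one] at h1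
  exact hp.out.ne_zero (by exact_mod_cast h1)

lemma prim_root (c : ℕ) :
    IsPrimitiveRoot (rr p c) (p ^ (c + 1)) := by
  have h := orderOf_eq_prime_pow (p := p) (root_pow_ne p c) (root_pow_card p c)
  have h2 := IsPrimitiveRoot.orderOf (rr p c)
  rwa [h] at h2

instance enough (c : ℕ) : HasEnoughRootsOfUnity (Cy p c) (p ^ (c + 1)) :=
  have : NeZero (p ^ (c + 1)) := ⟨(pow_pos hp.out.pos _).ne'⟩
  ⟨⟨_, prim_root p c⟩, inferInstance⟩

/-- reduction modulo `p` -/
noncomputable def red (c : ℕ) : Cy p c →+* ZMod p :=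
  AdjoinRoot.lift (Int.castRingHom (ZMod p)) 1 (by
    rw [cyclotomic_prime_pow_eq_geom_sum hp.out, eval₂_finsetSum]
    simp)

lemma red_rt (c : ℕ) : Units.map (red p c : Cy p c →* ZMod p) (rt p c) = 1 := by
  ext1
  simp [red, rr]

/-- the inclusion of the rings -/
noncomputable def inc (k a : ℕ) : Cy p k →+* Cy p (k + a) :=
  AdjoinRoot.lift (Int.castRingHom _) ((rr p (k + a)) ^ (p ^ a)) (by
    have h0 : (cyclotomic (p ^ (k + 1)) ℤ) = ∑ i ∈ Finset.range p, (X ^ (p ^ k)) ^ i :=
      cyclotomic_prime_pow_eq_geom_sum hp.out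
    rw [h0, eval₂_finsetSum, ← root_sum p (k + a)]
    refine Finset.sum_congr rfl fun i _ => ?_
    have h1 : (p ^ (k + a) : ℕ) = p ^ a * p ^ k := by rw [← pow_add, add_comm]
    simp only [eval₂_pow, eval₂_X, h1, pow_mul])

lemma inc_rt (k a : ℕ) : Units.map (inc p k a : Cy p k →* Cy p (k + a)) (rt p k) =
    (rt p (k + a)) ^ (p ^ a) := by
  ext1
  rw [Units.val_pow_eq_pow_val, rt_val]
  simp [inc, rr]

lemma natDegree_cyc (c : ℕ) : (cyclotomic (p ^ (c + 1)) ℤ).natDegree = p ^ c * (p - 1) := by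
  rw [natDegree_cyclotomic, Nat.totient_prime_pow_succ hp.out]

/-- the additive map with `root ^ m ↦ root ^ (m / p ^ a)` -/
noncomputable def psi (k a : ℕ) : Cy p (k + a) →ₗ[ℤ] Cy p k :=
  (AdjoinRoot.powerBasis' (cyclotomic.monic (p ^ (k + a + 1)) ℤ)).basis.constr ℤ
    (fun i => (rr p k) ^ ((i : ℕ) / p ^ a))

lemma psi_root (k a : ℕ) (m : ℕ) :
    psi p k a ((rr p (k + a)) ^ m) =
      (rr p k) ^ (m / p ^ a) := by
  have hpa : 0 < p ^ a := pow_pos hp.out.pos _
  induction m using Nat.strong_induction_on with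
  | _ m ih =>
    set pb := AdjoinRoot.powerBasis' (cyclotomic.monic (p ^ (k + a + 1)) ℤ) with hpb
    have hdim : pb.dim = p ^ (k + a) * (p - 1) := by
      rw [hpb, AdjoinRoot.powerBasis'_dim]
      exact natDegree_cyc p (k + a)
    by_cases hm : m < pb.dim
    · have h1 : (rr p (k + a)) ^ m = pb.basis ⟨m, hm⟩ := by
        rw [PowerBasis.basis_eq_pow]
        rfl
      rw [h1]
      exact Module.Basis.constr_basis pb.basis ℤ _ _
    · rw [hdim, not_lt] at hm
      obtain ⟨t, rfl⟩ := Nat.exists_eq_add_of_le hm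
      obtain ⟨p', hp'⟩ : ∃ p', p = p' + 1 := ⟨p - 1, by have := hp.out.pos; omega⟩
      have hK : p ^ (k + a) = p ^ a * p ^ k := by rw [← pow_add, add_comm]
      have h1 := root_sum p (k + a)
      have h2 := root_sum p k
      have e1 : ∀ (y : Cy p (k + a)), ∑ i ∈ Finset.range p, y ^ i = 0 →
          y ^ p' = -∑ i ∈ Finset.range p', y ^ i := by
        intro y hy
        have : ∑ i ∈ Finset.range (p' + 1), y ^ i = 0 := by rw [← hp']; exact hy
        rw [Finset.sum_range_succ] at this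
        linear_combination this
      have e2 : ∀ (y : Cy p k), ∑ i ∈ Finset.range p, y ^ i = 0 →
          y ^ p' = -∑ i ∈ Finset.range p', y ^ i := by
        intro y hy
        have : ∑ i ∈ Finset.range (p' + 1), y ^ i = 0 := by rw [← hp']; exact hy
        rw [Finset.sum_range_succ] at this
        linear_combination this
      have hp1 : p - 1 = p' := by omega
      rw [hp1] at hm ih ⊢
      have h0 : (rr p (k + a)) ^ (p ^ (k + a) * p' + t) =
          ((rr p (k + a)) ^ p ^ (k + a)) ^ p' * (rr p (k + a)) ^ t := by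
        rw [pow_add (rr p (k + a)), pow_mul (rr p (k + a))]
      rw [h0, e1 _ h1, neg_mul, Finset.sum_mul, map_neg, map_sum]
      have h3 : ∀ i ∈ Finset.range p', psi p k a
          (((rr p (k + a)) ^ p ^ (k + a)) ^ i *
            (rr p (k + a)) ^ t) =
          ((rr p k) ^ p ^ k) ^ i *
            (rr p k) ^ (t / p ^ a) := by
        intro i hi
        rw [← pow_mul (rr p (k + a)), ← pow_add (rr p (k + a)), ih]
        · have h4 : (p ^ (k + a) * i + t) / p ^ a = p ^ k * i + t / p ^ a := by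
            rw [hK, mul_assoc, Nat.mul_add_div hpa]
          rw [h4, pow_add (rr p k), pow_mul (rr p k)]
        · have : p ^ (k + a) * i < p ^ (k + a) * p' :=
            Nat.mul_lt_mul_of_pos_left (Finset.mem_range.1 hi) (pow_pos hp.out.pos _)
          omega
      have h5 : (p ^ (k + a) * p' + t) / p ^ a = p ^ k * p' + t / p ^ a := by
        rw [hK, mul_assoc, Nat.mul_add_div hpa]
      rw [Finset.sum_congr rfl h3, ← Finset.sum_mul, ← neg_mul, ← e2 _ h2, h5,
        pow_add (rr p k), pow_mul (rr p k)]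

lemma psi_lin_root (k a : ℕ) (r : Cy p (k + a)) :
    psi p k a ((rr p (k + a)) ^ (p ^ a) * r) =
      (rr p k) * psi p k a r := by
  have hpa : 0 < p ^ a := pow_pos hp.out.pos _
  induction r using AdjoinRoot.induction_on with
  | ih g =>
    induction g using Polynomial.induction_on' with
    | add f g hf hg => rw [map_add, mul_add, map_add, hf, hg, map_add, mul_add]
    | monomial n c =>
      have h1 : AdjoinRoot.mk (cyclotomic (p ^ (k + a + 1)) ℤ) (monomial n c) =
          c • (rr p (k + a)) ^ n := by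
        rw [← C_mul_X_pow_eq_monomial, map_mul, map_pow, AdjoinRoot.mk_X, zsmul_eq_mul]
        rfl
      rw [h1, mul_smul_comm, ← pow_add (rr p (k + a)), map_smul, map_smul, psi_root, psi_root,
        mul_smul_comm]
      congr 1
      rw [Nat.add_div_of_dvd_right (dvd_refl _), Nat.div_self hpa, pow_add (rr p k), pow_one]

lemma psi_lin (k a : ℕ) (x : Cy p k) (r : Cy p (k + a)) :
    psi p k a (inc p k a x * r) = x * psi p k a r := by
  induction x using AdjoinRoot.induction_on with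
  | ih g =>
    induction g using Polynomial.induction_on' with
    | add f g hf hg => rw [map_add, map_add, add_mul, map_add, hf, hg, add_mul]
    | monomial n c =>
      have h1 : AdjoinRoot.mk (cyclotomic (p ^ (k + 1)) ℤ) (monomial n c) =
          c • (rr p k) ^ n := by
        rw [← C_mul_X_pow_eq_monomial, map_mul, map_pow, AdjoinRoot.mk_X, zsmul_eq_mul]
        rfl
      have h2 : inc p k a (rr p k) = (rr p (k + a)) ^ (p ^ a) := AdjoinRoot.lift_root _
      rw [h1, map_zsmul, map_pow, h2, smul_mul_assoc, map_smul, smul_mul_assoc]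
      congr 1
      clear h1
      induction n with
      | zero => rw [pow_zero, pow_zero, one_mul, one_mul]
      | succ n ih =>
        rw [pow_succ' ((rr p (k + a)) ^ p ^ a) n, mul_assoc, psi_lin_root, ih,
          pow_succ' (rr p k) n, mul_assoc]

lemma test_cy (k a : ℕ) : Test (rt p k) (inc p k a) (rt p (k + a)) where
  dvd r hr := by
    have hfin : Module.Finite ℤ (Cy p (k + a)) :=
      (AdjoinRoot.powerBasis' (cyclotomic.monic _ ℤ)).finite
    have hint : IsIntegral ℤ r := Algebra.IsIntegral.isIntegral r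
    obtain ⟨m, hm, hd⟩ := hint.isAlgebraic.exists_nonzero_dvd (mem_nonZeroDivisors_of_ne_zero hr)
    exact ⟨m, hm, by simpa using hd⟩
  free := cy_free p _
  psi := by
    refine ⟨(psi p k a).toAddMonoidHom, psi_lin p k a, fun n => ?_⟩
    have hpos : (0 : ℤ) < ((p ^ (k + a + 1) : ℕ) : ℤ) := by exact_mod_cast pow_pos hp.out.pos _
    have h0 := Int.emod_nonneg n hpos.ne'
    refine ⟨(((n % (p ^ (k + a + 1) : ℕ)).toNat / p ^ a : ℕ) : ℤ), ?_⟩
    have hn : n = (p ^ (k + a + 1) : ℕ) * (n / (p ^ (k + a + 1) : ℕ)) +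
        ((n % (p ^ (k + a + 1) : ℕ)).toNat : ℤ) := by
      rw [Int.toNat_of_nonneg h0]
      exact (Int.mul_ediv_add_emod n _).symm
    have hz : (rt p (k + a)) ^ n = (rt p (k + a)) ^ ((n % (p ^ (k + a + 1) : ℕ)).toNat) := by
      conv_lhs => rw [hn]
      rw [zpow_add, zpow_mul, zpow_natCast, zpow_natCast, rt_pow, one_zpow, one_mul]
    rw [hz, zpow_natCast, Units.val_pow_eq_pow_val, Units.val_pow_eq_pow_val, rt_val, rt_val]
    exact psi_root p k a _

/-- `1 - u` divides `p` if `u` is a power of the root different from `1` -/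
lemma one_sub_dvd (k : ℕ) (u : (Cy p k)ˣ) (hu : u ∈ Subgroup.zpowers (rt p k)) (h1 : u ≠ 1) :
    (1 - (u : Cy p k)) ∣ (p : Cy p k) := by
  obtain ⟨l, rfl⟩ := Subgroup.mem_zpowers_iff.1 hu
  have hx : ((rt p k) ^ l) ^ (p ^ (k + 1)) = 1 := by
    rw [← zpow_natCast, zpow_comm, zpow_natCast, rt_pow, one_zpow]
  generalize (rt p k) ^ l = u at *
  obtain ⟨i, hi, hi2⟩ : ∃ i, u ^ (p ^ i) ≠ 1 ∧ u ^ (p ^ (i + 1)) = 1 := by
    by_contra hcon
    push Not at hcon
    have : ∀ i, u ^ (p ^ i) ≠ 1 := by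
      intro i
      induction i with
      | zero => simpa using h1
      | succ i ih => exact hcon i ih
    exact this _ hx
  have h2 : (1 - (u : Cy p k)) ∣ 1 - (u : Cy p k) ^ (p ^ i) := by
    have := sub_dvd_pow_sub_pow (1 : Cy p k) (u : Cy p k) (p ^ i)
    rwa [one_pow] at this
  refine h2.trans ?_
  set v : Cy p k := (u : Cy p k) ^ (p ^ i) with hv
  have h3 : v ≠ 1 := fun h => hi (by ext1; rw [Units.val_pow_eq_pow_val, ← hv, h, Units.val_one])
  have h4 : v ^ p = 1 := by
    rw [hv, ← pow_mul, ← pow_succ, ← Units.val_pow_eq_pow_val, hi2, Units.val_one]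
  have h5 : ∑ j ∈ Finset.range p, v ^ j = 0 := by
    have h6 := mul_geom_sum v p
    rw [h4, sub_self] at h6
    exact (mul_eq_zero.1 h6).resolve_left (sub_ne_zero.2 h3)
  have h6 : (p : Cy p k) = ∑ j ∈ Finset.range p, (1 - v ^ j) := by
    rw [Finset.sum_sub_distrib, h5, sub_zero]; simp
  rw [h6]
  refine Finset.dvd_sum fun j _ => ?_
  have := sub_dvd_pow_sub_pow (1 : Cy p k) v j
  rwa [one_pow] at this

end cyclo

/-! ### Fox calculus with trivial signs -/

section fox

variable {G : Type u} [Group G] {n : ℕ} {S : Type*} [CommRing S] (ζ : Fin n → Sˣ)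

/-- the pairs with `∑ v_i (ζ_i - 1) = u - 1` -/
def FoxS : Subgroup (Aff S (Fin n → S)) where
  carrier := {p | ∑ i, p.v i * ((ζ i : S) - 1) = (p.u : S) - 1}
  mul_mem' := by
    intro p q hp hq
    simp only [Set.mem_ofPred_eq, Aff.mul_u, Aff.mul_v, Units.val_mul, Pi.add_apply, Pi.smul_apply,
      smul_eq_mul, add_mul, Finset.sum_add_distrib] at *
    have h : ∑ i, (p.u : S) * q.v i * ((ζ i : S) - 1) =
        p.u * ∑ i, q.v i * ((ζ i : S) - 1) := by
      rw [Finset.mul_sum]
      exact Finset.sum_congr rfl fun i _ => by ring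
    rw [hp, h, hq]; ring
  one_mem' := by simp
  inv_mem' := by
    intro p hp
    simp only [Set.mem_ofPred_eq, Aff.inv_u, Aff.inv_v, Pi.smul_apply, smul_eq_mul] at *
    have h : ∑ i, -((p.u⁻¹ : Sˣ) : S) * p.v i * ((ζ i : S) - 1) =
        -((p.u⁻¹ : Sˣ) : S) * ∑ i, p.v i * ((ζ i : S) - 1) := by
      rw [Finset.mul_sum]
      exact Finset.sum_congr rfl fun i _ => by ring
    have h2 : ((p.u⁻¹ : Sˣ) : S) * p.u = 1 := Units.inv_mul _
    rw [h, hp]
    linear_combination -h2

lemma De0_mem (v : Adj G n) : De0 G S ζ v ∈ FoxS ζ := by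
  induction v using Coprod.induction_on with
  | inl g =>
    have : De0 G S ζ (Coprod.inl g) = 1 := by simp [De0]
    rw [this]; exact Subgroup.one_mem _
  | inr x =>
    have h : De0 G S ζ (Coprod.inr x) = FreeGroup.lift (fun i => (⟨Pi.single i 1, ζ i⟩ : Aff S (Fin n → S))) x := by
      simp [De0]
    rw [h]
    have hg : ∀ i, (⟨Pi.single i 1, ζ i⟩ : Aff S (Fin n → S)) ∈ FoxS ζ := by
      intro i
      show ∑ l, (Pi.single i (1 : S) : Fin n → S) l * ((ζ l : S) - 1) = (ζ i : S) - 1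
      rw [Finset.sum_eq_single i]
      · simp
      · intro l _ hl
        simp [hl]
      · simp
    clear h
    refine FreeGroup.induction_on (C := fun x => (FreeGroup.lift (fun i => (⟨Pi.single i 1, ζ i⟩ :
      Aff S (Fin n → S)))) x ∈ FoxS ζ) x ?_ ?_ ?_ ?_
    · rw [map_one]; exact Subgroup.one_mem _
    · intro i
      have : (FreeGroup.lift (fun i => (⟨Pi.single i 1, ζ i⟩ : Aff S (Fin n → S)))) (FreeGroup.of i) =
        ⟨Pi.single i 1, ζ i⟩ := FreeGroup.lift_apply_of
      rw [this]; exact hg i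
    · intro i h
      rw [map_inv]; exact Subgroup.inv_mem _ h
    · intro x y hx hy
      rw [map_mul]; exact Subgroup.mul_mem _ hx hy
  | mul x y hx hy => rw [map_mul]; exact Subgroup.mul_mem _ hx hy

lemma det_mul (w : Fin n → Adj G n) (hq : ∀ j, (De0 G S ζ (w j)).u = 1) (i : Fin n) :
    (DM0 S ζ w).det * ((ζ i : S) - 1) = 0 := by
  let z : Fin n → S := fun i => (ζ i : S) - 1
  have h1 : (DM0 S ζ w).mulVec z = 0 := by
    funext j
    have h := De0_mem ζ (w j)
    have h2 : ∑ i, (De0 G S ζ (w j)).v i * ((ζ i : S) - 1) = ((De0 G S ζ (w j)).u : S) - 1 := h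
    rw [hq j] at h2
    simpa [Matrix.mulVec, dotProduct, DM0, z] using h2
  have h3 : ((DM0 S ζ w).adjugate * (DM0 S ζ w)).mulVec z = 0 := by
    rw [← Matrix.mulVec_mulVec, h1, Matrix.mulVec_zero]
  rw [Matrix.adjugate_mul, Matrix.smul_mulVec, Matrix.one_mulVec] at h3
  exact congrFun h3 i

end fox

/-! ### The group ring of the finite quotient -/

section groupring

variable {G : Type u} [Group G] {n : ℕ} {P : Type} [AddCommGroup P] (q : (Fin n → ℤ) →+ P)

/-- the group elements as units -/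
noncomputable def U (S : Type) [CommRing S] (P : Type) [AddCommGroup P] :
    Multiplicative P →* (AddMonoidAlgebra S P)ˣ := (AddMonoidAlgebra.of S P).toHomUnits

lemma U_val (S : Type) [CommRing S] (g : Multiplicative P) :
    ((U S P g : (AddMonoidAlgebra S P)ˣ) : AddMonoidAlgebra S P) =
      AddMonoidAlgebra.single (Multiplicative.toAdd g) 1 := rfl

/-- the images of the generators -/
noncomputable def tau (S : Type) [CommRing S] (i : Fin n) : (AddMonoidAlgebra S P)ˣ :=
  U S P (Multiplicative.ofAdd (q (Pi.single i 1)))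

lemma mon_hom {Q : Type*} [CommGroup Q] (φ : Multiplicative (Fin n → ℤ) →* Q) :
    mon (fun i => φ (Multiplicative.ofAdd (Pi.single i 1))) = φ := by
  apply MonoidHom.ext
  intro α
  have h : α = ∏ i, (Multiplicative.ofAdd (Pi.single i 1 : Fin n → ℤ)) ^ (Multiplicative.toAdd α i) := by
    apply Multiplicative.toAdd.injective
    rw [toAdd_prod]
    simp only [toAdd_zpow, toAdd_ofAdd]
    conv_lhs => rw [pi_eq_sum_univ' (Multiplicative.toAdd α)]
  conv_rhs => rw [h]
  rw [map_prod]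
  simp only [map_zpow]
  rfl

lemma mon_tau (S : Type) [CommRing S] (α : Multiplicative (Fin n → ℤ)) :
    mon (tau q S) α = U S P (Multiplicative.ofAdd (q (Multiplicative.toAdd α))) := by
  have h := mon_hom ((U S P).comp (AddMonoidHom.toMultiplicative q))
  exact DFunLike.congr_fun h α

/-- the stabilizer of `δ` -/
def stab {Γ B : Type*} [Group Γ] [CommRing B] (F : Γ →* Bˣ) (δ : B) : Subgroup Γ where
  carrier := {x | δ * (F x : B) = δ}
  mul_mem' := by
    intro x y hx hy
    simp only [Set.mem_ofPred_eq, map_mul, Units.val_mul] at *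
    rw [← mul_assoc, hx, hy]
  one_mem' := by simp
  inv_mem' := by
    intro x hx
    simp only [Set.mem_ofPred_eq, map_inv] at *
    conv_lhs => rw [← hx]
    rw [mul_assoc, Units.mul_inv, mul_one]

lemma stab_all {B : Type} [CommRing B] (F : Multiplicative P →* Bˣ) (δ : B) (q : (Fin n → ℤ) →+ P)
    (hs : Function.Surjective q)
    (h0 : ∀ i, δ * ((F (Multiplicative.ofAdd (q (Pi.single i 1))) : B) - 1) = 0) (g : P) :
    δ * (F (Multiplicative.ofAdd g) : B) = δ := by
  have h1 : ∀ i, Multiplicative.ofAdd (q (Pi.single i 1)) ∈ stab F δ := by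
    intro i
    have h := h0 i
    rw [mul_sub, mul_one] at h
    exact sub_eq_zero.1 h
  obtain ⟨α, hα⟩ := hs g
  have h3 : Multiplicative.ofAdd g ∈ stab F δ := by
    have h4 : Multiplicative.ofAdd g =
        mon (fun i => (AddMonoidHom.toMultiplicative q) (Multiplicative.ofAdd (Pi.single i 1)))
          (Multiplicative.ofAdd α) := by
      rw [mon_hom, ← hα]; rfl
    rw [h4]
    show ∏ i, (Multiplicative.ofAdd (q (Pi.single i 1))) ^ (α i) ∈ stab F δ
    exact Subgroup.prod_mem _ fun i _ => Subgroup.zpow_mem _ (h1 i) _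
  exact h3

variable (w : Fin n → Adj G n) (hq : ∀ j, q (Multiplicative.toAdd (exv G n (w j))) = 0)

include hq in
lemma De0_tau_u (S : Type) [CommRing S] (j : Fin n) :
    (De0 G (AddMonoidAlgebra S P) (tau q S) (w j)).u = 1 := by
  rw [De0_u, mon_tau, hq, ofAdd_zero, map_one]

include hq in
lemma det_mul_single (hs : Function.Surjective q) (S : Type) [CommRing S] (g : P) :
    (DM0 (AddMonoidAlgebra S P) (tau q S) w).det * AddMonoidAlgebra.single g 1 =
      (DM0 (AddMonoidAlgebra S P) (tau q S) w).det := by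
  have h0 : ∀ i, (DM0 (AddMonoidAlgebra S P) (tau q S) w).det *
      (((tau q S i : (AddMonoidAlgebra S P)ˣ) : AddMonoidAlgebra S P) - 1) = 0 :=
    det_mul (tau q S) w (De0_tau_u q w hq S)
  exact stab_all (U S P) _ q hs (fun i => h0 i) g

end groupring

/-! ### Sums of coefficients and characters -/

section lt

variable {P : Type} [AddCommGroup P] [Fintype P] (T : AddSubgroup P)

open Classical in
/-- the sum of the coefficients at the elements of `T` -/
noncomputable def LT (S : Type) [CommRing S] : AddMonoidAlgebra S P →+ S where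
  toFun x := ∑ g : P, if g ∈ T then x.coeff g else 0
  map_zero' := by simp
  map_add' x y := by
    rw [← Finset.sum_add_distrib]
    refine Finset.sum_congr rfl fun g _ => ?_
    split_ifs <;> simp

open Classical in
lemma LT_single (S : Type) [CommRing S] (g : P) (s : S) :
    LT T S (AddMonoidAlgebra.single g s) = if g ∈ T then s else 0 := by
  show ∑ h : P, (if h ∈ T then (AddMonoidAlgebra.single g s).coeff h else 0) = _
  rw [Finset.sum_eq_single g]
  · simp [AddMonoidAlgebra.coeff_single]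
  · intro h _ hh
    simp [AddMonoidAlgebra.coeff_single, Ne.symm hh]
  · simp

lemma LT_map {S S' : Type} [CommRing S] [CommRing S'] (f : S →+* S') (x : AddMonoidAlgebra S P) :
    LT T S' (AddMonoidAlgebra.mapRingHom P f x) = f (LT T S x) := by
  classical
  induction x using AddMonoidAlgebra.induction_linear with
  | zero => simp
  | add x y hx hy => rw [map_add, map_add, map_add, map_add, hx, hy]
  | single g s =>
    rw [AddMonoidAlgebra.mapRingHom_single, LT_single, LT_single]
    split_ifs <;> simp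

/-- the sum of all group elements -/
noncomputable def NN (P : Type) [AddCommGroup P] [Fintype P] : AddMonoidAlgebra ℤ P :=
  ∑ g : P, AddMonoidAlgebra.single g 1

/-- the augmentation -/
noncomputable def aug (P : Type) [AddCommGroup P] : AddMonoidAlgebra ℤ P →+* ℤ :=
  (AddMonoidAlgebra.lift ℤ ℤ P 1).toRingHom

omit [Fintype P] in
lemma aug_single (g : P) (s : ℤ) : aug P (AddMonoidAlgebra.single g s) = s := by
  show (AddMonoidAlgebra.lift ℤ ℤ P 1) (AddMonoidAlgebra.single g s) = s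
  rw [AddMonoidAlgebra.lift_single]; simp

lemma mul_NN (δ : AddMonoidAlgebra ℤ P) : δ * NN P = aug P δ • NN P := by
  induction δ using AddMonoidAlgebra.induction_linear with
  | zero => simp
  | add x y hx hy => rw [add_mul, hx, hy, map_add, add_smul]
  | single g s =>
    rw [aug_single, NN, Finset.mul_sum, Finset.smul_sum]
    simp only [AddMonoidAlgebra.single_mul_single, mul_one, AddMonoidAlgebra.smul_single, smul_eq_mul]
    exact Fintype.sum_equiv (Equiv.addLeft g) _ _ (fun h => rfl)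

lemma LT_inv (δ : AddMonoidAlgebra ℤ P) (h : ∀ g : P, δ * AddMonoidAlgebra.single g 1 = δ) :
    (Fintype.card P : ℤ) * LT T ℤ δ = aug P δ * Nat.card T := by
  classical
  have h1 : δ * NN P = (Fintype.card P : ℤ) • δ := by
    rw [NN, Finset.mul_sum, Finset.sum_congr rfl fun g _ => h g]
    simp
  have h2 := congrArg (LT T ℤ) ((mul_NN δ).symm.trans h1)
  rw [map_zsmul, map_zsmul, smul_eq_mul, smul_eq_mul] at h2
  rw [← h2]
  congr 1
  rw [NN, map_sum, Finset.sum_congr rfl fun g _ => LT_single T ℤ g 1, Finset.sum_ite]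
  simp only [Finset.sum_const_zero, add_zero, Finset.sum_const, nsmul_eq_mul, mul_one]
  rw [Nat.card_eq_fintype_card, Fintype.card_subtype]

variable {R : Type} [CommRing R] [IsDomain R] [CharZero R]

/-- evaluation at a character -/
noncomputable def ev (φ : Multiplicative (P ⧸ T) →* Rˣ) : AddMonoidAlgebra R P →+* R :=
  (AddMonoidAlgebra.lift R R P ((Units.coeHom R).comp (φ.comp
    (AddMonoidHom.toMultiplicative (QuotientAddGroup.mk' T))))).toRingHom

omit [Fintype P] [IsDomain R] [CharZero R] in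
lemma ev_single (φ : Multiplicative (P ⧸ T) →* Rˣ) (g : P) (s : R) :
    ev T φ (AddMonoidAlgebra.single g s) = s * (φ (Multiplicative.ofAdd (QuotientAddGroup.mk' T g)) : R) := by
  show (AddMonoidAlgebra.lift R R P _) (AddMonoidAlgebra.single g s) = _
  rw [AddMonoidAlgebra.lift_single]; rfl

lemma exists_char [Finite (Multiplicative (P ⧸ T) →* Rˣ)]
    (hsep : ∀ x : P ⧸ T, x ≠ 0 → ∃ φ : Multiplicative (P ⧸ T) →* Rˣ, φ (Multiplicative.ofAdd x) ≠ 1)
    (x : AddMonoidAlgebra R P) (hx : LT T R x ≠ 0) :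
    ∃ φ : Multiplicative (P ⧸ T) →* Rˣ, ev T φ x ≠ 0 := by
  classical
  have : Fintype (Multiplicative (P ⧸ T) →* Rˣ) := Fintype.ofFinite _
  by_contra hcon
  push Not at hcon
  have orth : ∀ y : P ⧸ T, y ≠ 0 →
      ∑ φ : Multiplicative (P ⧸ T) →* Rˣ, (φ (Multiplicative.ofAdd y) : R) = 0 := by
    intro y hy
    obtain ⟨φ0, h0⟩ := hsep y hy
    have h1 : ∑ φ : Multiplicative (P ⧸ T) →* Rˣ, (φ (Multiplicative.ofAdd y) : R) =
        (φ0 (Multiplicative.ofAdd y) : R) *
          ∑ φ : Multiplicative (P ⧸ T) →* Rˣ, (φ (Multiplicative.ofAdd y) : R) := by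
      rw [Finset.mul_sum]
      refine (Fintype.sum_equiv (Equiv.mulLeft φ0) _ _ (fun φ => ?_)).symm
      simp
    have h2 : ((φ0 (Multiplicative.ofAdd y) : R) - 1) *
        ∑ φ : Multiplicative (P ⧸ T) →* Rˣ, (φ (Multiplicative.ofAdd y) : R) = 0 := by
      linear_combination -h1
    rcases mul_eq_zero.1 h2 with h3 | h3
    · exact absurd (Units.ext (sub_eq_zero.1 h3)) h0
    · exact h3
  have key : ∀ z : AddMonoidAlgebra R P, ∑ φ : Multiplicative (P ⧸ T) →* Rˣ, ev T φ z =
      (Fintype.card (Multiplicative (P ⧸ T) →* Rˣ) : R) * LT T R z := by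
    intro z
    induction z using AddMonoidAlgebra.induction_linear with
    | zero => simp
    | add x y hx hy => simp only [map_add, Finset.sum_add_distrib, hx, hy, mul_add]
    | single g s =>
      simp only [ev_single, LT_single]
      rw [← Finset.mul_sum]
      split_ifs with hg
      · have : (QuotientAddGroup.mk' T) g = 0 := (QuotientAddGroup.eq_zero_iff g).2 hg
        simp [this, mul_comm]
      · have : (QuotientAddGroup.mk' T) g ≠ 0 := fun h => hg ((QuotientAddGroup.eq_zero_iff g).1 h)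
        rw [orth _ this]; simp
  have h := key x
  rw [Finset.sum_congr rfl fun φ _ => hcon φ, Finset.sum_const_zero] at h
  have h2 : (Fintype.card (Multiplicative (P ⧸ T) →* Rˣ) : R) ≠ 0 := by
    exact_mod_cast Fintype.card_ne_zero
  exact hx ((mul_eq_zero.1 h.symm).resolve_left h2)

end lt

/-! ### The choice of the roots of unity -/

section choice

variable {A : Type u} [AddCommGroup A] {G : Type u} [Group G] {n : ℕ}

lemma De0_int (v : Adj G n) : (De0 G ℤ (fun _ : Fin n => (1 : ℤˣ)) v).v =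
    Multiplicative.toAdd (exv G n v) := by
  let K : Multiplicative (Fin n → ℤ) →* Aff ℤ (Fin n → ℤ) :=
    { toFun := fun α => ⟨Multiplicative.toAdd α, 1⟩
      map_one' := rfl
      map_mul' := fun α β => by ext <;> simp }
  have h : De0 G ℤ (fun _ : Fin n => (1 : ℤˣ)) = K.comp (exv G n) := by
    apply Coprod.hom_ext
    · apply MonoidHom.ext
      intro g
      simp [De0, exv]
    · apply FreeGroup.ext_hom
      intro i
      simp [De0, exv, K]
  rw [h]; rfl

lemma DM0_int (w : Fin n → Adj G n) : DM0 ℤ (fun _ : Fin n => (1 : ℤˣ)) w = expMat w := by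
  ext j i
  simp only [DM0, expMat, Matrix.of_apply, De0_int]

lemma mon_map {Q Q' : Type*} [CommGroup Q] [CommGroup Q'] (f : Q →* Q') (ζ : Fin n → Q)
    (α : Multiplicative (Fin n → ℤ)) : f (mon ζ α) = mon (fun i => f (ζ i)) α := by
  simp [mon]

lemma mon_mul {Q : Type*} [CommGroup Q] (ζ ξ : Fin n → Q)
    (α : Multiplicative (Fin n → ℤ)) : mon (fun i => ζ i * ξ i) α = mon ζ α * mon ξ α := by
  simp [mon, mul_zpow, Finset.prod_mul_distrib]

/-- the lattice of the exponent vectors -/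
def Lam (w : Fin n → Adj G n) : Submodule ℤ (Fin n → ℤ) :=
  Submodule.span ℤ (Set.range fun j => expMat w j)

lemma card_quot (w : Fin n → Adj G n) (hs : (expMat w).det ≠ 0) :
    Nat.card ((Fin n → ℤ) ⧸ Lam w) = (expMat w).det.natAbs := by
  have hli : LinearIndependent ℤ (fun j => expMat w j) :=
    Matrix.linearIndependent_rows_of_det_ne_zero hs
  have h := Submodule.natAbs_det_basis_change (Pi.basisFun ℤ (Fin n)) (Lam w)
    (Module.Basis.span hli)
  have h2 : ((↑) ∘ (Module.Basis.span hli) : Fin n → (Fin n → ℤ)) = fun j => expMat w j := by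
    funext j
    simp [Module.Basis.span_apply]
  have h3 : ((Pi.basisFun ℤ (Fin n)).det fun j => expMat w j) = (expMat w).det := by
    rw [Pi.basisFun_det]; rfl
  rw [← h3, ← h2]
  exact h.symm

variable (p : ℕ) [hp : Fact p.Prime] (k : ℕ) [Module (Cy p k) A] (e : G →* Aff (Cy p k) A)
  (he : ∀ g, (e g).u ∈ Subgroup.zpowers (rt p k))

include he in
lemma De_eq_De0 {S : Type} [CommRing S] (f : Cy p k →+* S)
    (hf : Units.map (f : Cy p k →* S) (rt p k) = 1) (ζ : Fin n → Sˣ) :
    De e f ζ = De0 G S ζ := by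
  apply Coprod.hom_ext
  · apply MonoidHom.ext
    intro g
    have h1 : Units.map (f : Cy p k →* S) (e g).u = 1 := by
      obtain ⟨l, hl⟩ := Subgroup.mem_zpowers_iff.1 (he g)
      rw [← hl, map_zpow, hf, one_zpow]
    ext
    · simp [De, De0, Th]
    · simp [De, De0, Th, h1]
  · ext i <;> simp [De, De0, Th]

include he in
lemma DM_eq_DM0 {S : Type} [CommRing S] (f : Cy p k →+* S)
    (hf : Units.map (f : Cy p k →* S) (rt p k) = 1) (ζ : Fin n → Sˣ) (w : Fin n → Adj G n) :
    DM e f ζ w = DM0 S ζ w := by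
  ext j i
  simp only [DM, DM0, Matrix.of_apply, De_eq_De0 p k e he f hf]

include he in
lemma exists_test (w : Fin n → Adj G n) (hs : (expMat w).det ≠ 0) : Data e (rt p k) w := by
  classical
  obtain ⟨a, q0, hq0, haq⟩ := Nat.exists_eq_pow_mul_and_not_dvd (n := (expMat w).det.natAbs)
    (by simpa using hs) p hp.out.ne_one
  let P := (Fin n → ℤ) ⧸ Lam w
  have hcard : Nat.card P = p ^ a * q0 := by rw [card_quot w hs, haq]
  have hpos : Nat.card P ≠ 0 := by rw [card_quot w hs]; simpa using hs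
  have : Finite P := Nat.finite_of_card_ne_zero hpos
  have : Fintype P := Fintype.ofFinite P
  let q : (Fin n → ℤ) →+ P := (Lam w).mkQ.toAddMonoidHom
  have hqs : Function.Surjective q := Submodule.mkQ_surjective _
  have hq : ∀ j, q (Multiplicative.toAdd (exv G n (w j))) = 0 := by
    intro j
    exact (Submodule.Quotient.mk_eq_zero _).2 (Submodule.subset_span ⟨j, rfl⟩)
  let T : AddSubgroup P := (nsmulAddMonoidHom (p ^ a) : P →+ P).range
  have hT : ∀ t ∈ T, q0 • t = 0 := by
    rintro _ ⟨s, rfl⟩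
    have h1 : Nat.card P • s = 0 := card_nsmul_eq_zero'
    rw [hcard] at h1
    show q0 • (p ^ a • s) = 0
    rw [smul_smul, mul_comm]; exact h1
  have hTodd : ¬ p ∣ Nat.card T := by
    intro hev
    obtain ⟨t, ht⟩ := exists_prime_addOrderOf_dvd_card' p hev
    have h1 : q0 • t = 0 := by
      ext1
      exact hT t t.2
    have h2 := addOrderOf_dvd_of_nsmul_eq_zero h1
    rw [ht] at h2
    exact hq0 h2
  -- the integral determinant
  let δ := (DM0 (AddMonoidAlgebra ℤ P) (tau q ℤ) w).det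
  have hδ : ∀ g : P, δ * AddMonoidAlgebra.single g 1 = δ := det_mul_single q w hq hqs ℤ
  have haug : aug P δ = (expMat w).det := by
    have h1 := DM0_map (aug P) (tau q ℤ) w
    have h2 : (fun i => Units.map (aug P : AddMonoidAlgebra ℤ P →* ℤ) (tau q ℤ i)) =
        fun _ => (1 : ℤˣ) := by
      funext i
      ext1
      show aug P (AddMonoidAlgebra.single _ 1) = 1
      rw [aug_single]
    rw [h2, DM0_int] at h1
    exact h1.symm
  have hLT : ¬ (p : ℤ) ∣ LT T ℤ δ := by
    have h1 := LT_inv T δ hδ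
    rw [haug] at h1
    have h2 := congrArg Int.natAbs h1
    rw [Int.natAbs_mul, Int.natAbs_mul, Int.natAbs_natCast, Int.natAbs_natCast, ← card_quot w hs,
      ← Nat.card_eq_fintype_card] at h2
    have h3 : (LT T ℤ δ).natAbs = Nat.card T := Nat.eq_of_mul_eq_mul_left (Nat.pos_of_ne_zero hpos) h2
    rw [Int.natCast_dvd, h3]
    exact hTodd
  -- the twisted determinant
  let R := Cy p (k + a)
  let f : Cy p k →+* R := inc p k a
  choose l hl using fun j => Subgroup.mem_zpowers_iff.1 (sg_mem e (rt p k) he (w j))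
  obtain ⟨q1, hq1, hdet⟩ : ∃ q1 : ℤ, ¬ (p : ℤ) ∣ q1 ∧ (expMat w).det = (p : ℤ) ^ a * q1 := by
    rcases Int.natAbs_eq (expMat w).det with h | h
    · refine ⟨q0, fun h2 => hq0 (by exact_mod_cast h2), ?_⟩
      rw [h, haq]; push_cast; ring
    · refine ⟨-q0, fun h2 => hq0 (by exact_mod_cast (dvd_neg.1 h2)), ?_⟩
      rw [h, haq]; push_cast; ring
  have hcop : IsCoprime q1 ((p : ℤ) ^ (k + a + 1)) := by
    refine IsCoprime.pow_right ?_
    rw [Int.isCoprime_iff_gcd_eq_one, Int.gcd_comm]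
    rw [← Int.isCoprime_iff_gcd_eq_one]
    exact ((Nat.prime_iff_prime_int.1 hp.out).coprime_iff_not_dvd).2 hq1
  obtain ⟨x, y, hxy⟩ := hcop
  let s : Fin n → ℤ := fun j => -(l j * x)
  let m : Fin n → ℤ := (expMat w).adjugate.mulVec s
  let c : R →+* AddMonoidAlgebra R P := AddMonoidAlgebra.singleZeroRingHom
  let Z : Fin n → (AddMonoidAlgebra R P)ˣ := fun i =>
    Units.map (c : R →* AddMonoidAlgebra R P) (rt p (k + a) ^ m i) * tau q R i
  let δ' := (DM e (c.comp f) Z w).det
  have hδ' : LT T R δ' ≠ 0 := by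
    intro h0
    have h1 := LT_map T (red p (k + a)) δ'
    rw [h0, map_zero] at h1
    have h2 := DM_map e (c.comp f) (AddMonoidAlgebra.mapRingHom P (red p (k + a))) Z w
    have h3 : (fun i => Units.map (AddMonoidAlgebra.mapRingHom P (red p (k + a)) :
        AddMonoidAlgebra R P →* AddMonoidAlgebra (ZMod p) P) (Z i)) = tau q (ZMod p) := by
      funext i
      ext1
      have h5 : red p (k + a) ((rt p (k + a) ^ m i : Rˣ) : R) = 1 := by
        have h6 : Units.map (red p (k + a) : Cy p (k + a) →* ZMod p) (rt p (k + a) ^ m i) = 1 := by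
          rw [map_zpow, red_rt, one_zpow]
        exact congrArg Units.val h6
      show AddMonoidAlgebra.mapRingHom P (red p (k + a))
        (AddMonoidAlgebra.single 0 ((rt p (k + a) ^ m i : Rˣ) : R) * AddMonoidAlgebra.single _ 1) = _
      rw [map_mul, AddMonoidAlgebra.mapRingHom_single, AddMonoidAlgebra.mapRingHom_single, h5,
        map_one, AddMonoidAlgebra.single_mul_single, zero_add, one_mul]
      rfl
    have hm1 : Units.map ((AddMonoidAlgebra.mapRingHom P (red p (k + a))).comp (c.comp f) :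
        Cy p k →* AddMonoidAlgebra (ZMod p) P) (rt p k) = 1 := by
      ext1
      have h6 : f ((rt p k : (Cy p k)ˣ) : Cy p k) = (((rt p (k + a)) ^ (p ^ a) : Rˣ) : R) :=
        congrArg Units.val (inc_rt p k a)
      have h7 : red p (k + a) (((rt p (k + a)) ^ (p ^ a) : Rˣ) : R) = 1 := by
        have h8 : Units.map (red p (k + a) : Cy p (k + a) →* ZMod p) (rt p (k + a) ^ (p ^ a)) = 1 := by
          rw [map_pow, red_rt, one_pow]
        exact congrArg Units.val h8
      show AddMonoidAlgebra.mapRingHom P (red p (k + a))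
        (AddMonoidAlgebra.single 0 (f ((rt p k : (Cy p k)ˣ) : Cy p k))) = 1
      rw [AddMonoidAlgebra.mapRingHom_single, h6, h7]
      rfl
    rw [h3, DM_eq_DM0 p k e he _ hm1] at h2
    have h7 := DM0_map (AddMonoidAlgebra.mapRingHom P (Int.castRingHom (ZMod p))) (tau q ℤ) w
    have h8 : (fun i => Units.map (AddMonoidAlgebra.mapRingHom P (Int.castRingHom (ZMod p)) :
        AddMonoidAlgebra ℤ P →* AddMonoidAlgebra (ZMod p) P) (tau q ℤ i)) = tau q (ZMod p) := by
      funext i
      ext1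
      show AddMonoidAlgebra.mapRingHom P (Int.castRingHom (ZMod p)) (AddMonoidAlgebra.single _ 1) = _
      rw [AddMonoidAlgebra.mapRingHom_single, map_one]
      rfl
    rw [h8] at h7
    have h9 : LT T (ZMod p) (AddMonoidAlgebra.mapRingHom P (Int.castRingHom (ZMod p)) δ) = 0 := by
      rw [← h1, ← h2]
      exact congrArg _ h7.symm
    rw [LT_map] at h9
    have h10 : ((LT T ℤ δ : ℤ) : ZMod p) = 0 := h9
    rw [ZMod.intCast_zmod_eq_zero_iff_dvd] at h10
    exact hLT h10
  -- separation of the points of the quotient by characters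
  have hexp : Monoid.exponent (Multiplicative (P ⧸ T)) ∣ p ^ (k + a + 1) := by
    apply Monoid.exponent_dvd_of_forall_pow_eq_one
    intro x
    obtain ⟨g, hg⟩ := QuotientAddGroup.mk'_surjective T (Multiplicative.toAdd x)
    apply Multiplicative.toAdd.injective
    rw [toAdd_pow, ← hg, ← map_nsmul, toAdd_one]
    refine (QuotientAddGroup.eq_zero_iff _).2 ⟨p ^ (k + 1) • g, ?_⟩
    show p ^ a • (p ^ (k + 1) • g) = _
    rw [smul_smul, ← pow_add, show a + (k + 1) = k + a + 1 by ring]
  have : NeZero (p ^ (k + a + 1)) := ⟨(pow_pos hp.out.pos _).ne'⟩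
  have : HasEnoughRootsOfUnity R (Monoid.exponent (Multiplicative (P ⧸ T))) :=
    HasEnoughRootsOfUnity.of_dvd R hexp
  have : Finite (Multiplicative (P ⧸ T)) := inferInstanceAs (Finite (P ⧸ T))
  have hsep : ∀ x : P ⧸ T, x ≠ 0 →
      ∃ φ : Multiplicative (P ⧸ T) →* Rˣ, φ (Multiplicative.ofAdd x) ≠ 1 := by
    intro x hx
    exact CommGroup.exists_apply_ne_one_of_hasEnoughRootsOfUnity (Multiplicative (P ⧸ T)) R
      (fun h => hx (Multiplicative.ofAdd.injective h))
  have : Finite (Multiplicative (P ⧸ T) →* Rˣ) :=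
    Finite.of_equiv _ (CommGroup.monoidHom_mulEquiv_of_hasEnoughRootsOfUnity
      (Multiplicative (P ⧸ T)) R).some.symm.toEquiv
  obtain ⟨φ, hφ⟩ := exists_char T hsep δ' hδ'
  have hφpow : ∀ x, ∃ i : ℤ, φ x = rt p (k + a) ^ i := by
    intro x
    have h1 : (φ x : R) ^ (p ^ (k + a + 1)) = 1 := by
      have h2 : x ^ (p ^ (k + a + 1)) = 1 := by
        obtain ⟨d, hd⟩ := hexp
        rw [hd, pow_mul, Monoid.pow_exponent_eq_one, one_pow]
      rw [← Units.val_pow_eq_pow_val, ← map_pow, h2, map_one, Units.val_one]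
    obtain ⟨i, -, hi⟩ := (prim_root p (k + a)).eq_pow_of_pow_eq_one h1
    exact ⟨i, by ext1; rw [zpow_natCast, Units.val_pow_eq_pow_val, rt_val, hi]⟩
  have hZ : ∀ i, Units.map (ev T φ : AddMonoidAlgebra R P →* R) (Z i) =
      rt p (k + a) ^ m i * φ (Multiplicative.ofAdd (QuotientAddGroup.mk' T (q (Pi.single i 1)))) := by
    intro i
    ext1
    show ev T φ (AddMonoidAlgebra.single 0 ((rt p (k + a) ^ m i : Rˣ) : R) *
      AddMonoidAlgebra.single _ 1) = _
    rw [map_mul, ev_single, ev_single, map_zero, ofAdd_zero, map_one, Units.val_one, mul_one, one_mul]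
    rfl
  have h2 : ∀ r : Rˣ, Units.map (ev T φ : AddMonoidAlgebra R P →* R)
      (Units.map (c : R →* AddMonoidAlgebra R P) r) = r := by
    intro r
    ext1
    show ev T φ (AddMonoidAlgebra.single 0 (r : R)) = r
    rw [ev_single, map_zero, ofAdd_zero, map_one, Units.val_one, mul_one]
  have hcomp : (ev T φ).comp (c.comp f) = f := by
    ext1
    · exact RingHom.ext_int _ _
    · show ev T φ (AddMonoidAlgebra.single 0 (f _)) = f _
      rw [ev_single, map_zero, ofAdd_zero, map_one, Units.val_one, mul_one]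
  refine ⟨R, inferInstance, f, rt p (k + a),
    fun i => Units.map (ev T φ : AddMonoidAlgebra R P →* R) (Z i), test_cy p k a, ?_, ?_, ?_⟩
  · intro i
    obtain ⟨t, ht⟩ := hφpow (Multiplicative.ofAdd (QuotientAddGroup.mk' T (q (Pi.single i 1))))
    exact ⟨m i + t, (hZ i).trans (by rw [ht, zpow_add])⟩
  · intro j
    rw [← mon_map]
    have h1 : mon Z (exv G n (w j)) = Units.map (c : R →* AddMonoidAlgebra R P)
        (mon (fun i => rt p (k + a) ^ m i) (exv G n (w j))) := by
      rw [mon_mul, mon_tau, hq, ofAdd_zero, map_one, mul_one, mon_map]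
    rw [h1, h2]
    have h3 : mon (fun i => rt p (k + a) ^ m i) (exv G n (w j)) =
        rt p (k + a) ^ ((expMat w).det * s j) := by
      have h4 : ∑ i, m i * (expMat w j i) = (expMat w).det * s j := by
        have h5 : ((expMat w).mulVec m) j = (expMat w).det * s j := by
          show ((expMat w).mulVec ((expMat w).adjugate.mulVec s)) j = _
          rw [Matrix.mulVec_mulVec, Matrix.mul_adjugate, Matrix.smul_mulVec, Matrix.one_mulVec]
          rfl
        rw [← h5]
        simp only [Matrix.mulVec, dotProduct]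
        exact Finset.sum_congr rfl fun i _ => mul_comm _ _
      rw [← h4, prod_zpow_sum]
      simp only [mon, MonoidHom.coe_mk, OneHom.coe_mk, ← zpow_mul]
      rfl
    have h6 : Units.map (f : Cy p k →* R) (rt p k) = (rt p (k + a)) ^ (p ^ a) := inc_rt p k a
    rw [h3, ← hl j, map_zpow, h6, ← zpow_natCast, ← zpow_mul, ← zpow_add, hdet]
    have h7 : ((p ^ a : ℕ) : ℤ) * l j + (p : ℤ) ^ a * q1 * s j =
        ((p ^ (k + a + 1) : ℕ) : ℤ) * ((p : ℤ) ^ a * l j * y) := by
      push_cast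
      show (p : ℤ) ^ a * l j + (p : ℤ) ^ a * q1 * (-(l j * x)) = _
      linear_combination (-((p : ℤ) ^ a * l j)) * hxy
    rw [h7, zpow_mul, zpow_natCast, rt_pow, one_zpow]
  · have h3 := DM_map e (c.comp f) (ev T φ) Z w
    rw [hcomp] at h3
    rw [h3]
    exact hφ

end choice

/-- The group of the pairs `(a, u)`, `a` in the `ℤ[ω]`-module `A` and `u` a power of the root of unity
`ω` of order `p ^ (k + 1)`, with `(a, u) (b, v) = (a + u b, u v)`. -/
noncomputable def Fr (p k : ℕ) [Fact p.Prime] (A : Type u) [AddCommGroup A] [Module (Cy p k) A] :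
    Subgroup (Aff (Cy p k) A) := (Subgroup.zpowers (rt p k)).comap Aff.uHom

section zero

variable (p : ℕ) [hp : Fact p.Prime] {A : Type u} [AddCommGroup A] [Module (Cy p 0) A]

lemma one_sub_dvd_one_sub (u : (Cy p 0)ˣ) (hu : u ∈ Subgroup.zpowers (rt p 0)) (h1 : u ≠ 1) :
    (1 - (u : Cy p 0)) ∣ (1 - (rt p 0 : Cy p 0)) := by
  obtain ⟨l, rfl⟩ := Subgroup.mem_zpowers_iff.1 hu
  have hpow : (rt p 0) ^ (p : ℤ) = 1 := by
    have h2 : p = p ^ (0 + 1) := by rw [zero_add, pow_one]
    rw [zpow_natCast]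
    exact (congrArg (fun t : ℕ => rt p 0 ^ t) h2).trans (rt_pow p 0)
  have hl : ¬ (p : ℤ) ∣ l := by
    rintro ⟨t, rfl⟩
    exact h1 (by rw [zpow_mul, hpow, one_zpow])
  have hcop : IsCoprime l (p : ℤ) := by
    rw [Int.isCoprime_iff_gcd_eq_one, Int.gcd_comm, ← Int.isCoprime_iff_gcd_eq_one]
    exact ((Nat.prime_iff_prime_int.1 hp.out).coprime_iff_not_dvd).2 hl
  obtain ⟨x, y, hxy⟩ := hcop
  have hpp : (0 : ℤ) < p := by exact_mod_cast hp.out.pos
  have h2 : rt p 0 = (rt p 0 ^ l) ^ ((x % p).toNat) := by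
    have h3 : ((rt p 0 ^ l) ^ ((x % p).toNat)) = (rt p 0 ^ l) ^ (x % p) := by
      rw [← zpow_natCast, Int.toNat_of_nonneg (Int.emod_nonneg _ hpp.ne')]
    have h4 : (rt p 0 ^ l) ^ (x % p) = (rt p 0 ^ l) ^ x := by
      conv_rhs => rw [← Int.mul_ediv_add_emod x p]
      rw [zpow_add, zpow_mul, ← zpow_mul (rt p 0) l p, mul_comm l (p : ℤ), zpow_mul (rt p 0) (p : ℤ) l,
        hpow, one_zpow, one_zpow, one_mul]
    rw [h3, h4, ← zpow_mul]
    have h5 : l * x = 1 + (p : ℤ) * (-y) := by linear_combination hxy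
    rw [h5, zpow_add, zpow_mul, hpow, one_zpow, mul_one, zpow_one]
  have h6 := sub_dvd_pow_sub_pow (1 : Cy p 0) ((rt p 0 ^ l : (Cy p 0)ˣ) : Cy p 0) ((x % p).toNat)
  rw [one_pow, ← Units.val_pow_eq_pow_val, ← h2] at h6
  exact h6

/-- the submodule `(1 - ω) A` -/
noncomputable def aug1 (p : ℕ) [Fact p.Prime] (A : Type u) [AddCommGroup A] [Module (Cy p 0) A] :
    AddSubgroup A :=
  (DistribSMul.toAddMonoidHom A (1 - (rt p 0 : Cy p 0))).range

lemma smul_sub_mem (u : (Cy p 0)ˣ) (hu : u ∈ Subgroup.zpowers (rt p 0)) (a : A) :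
    (u : Cy p 0) • a - a ∈ aug1 p A := by
  have h1 : (1 - (rt p 0 : Cy p 0)) ∣ (1 - (u : Cy p 0)) := by
    have hpos : 0 < p ^ (0 + 1) := pow_pos hp.out.pos _
    obtain ⟨l, hl⟩ := Subgroup.mem_zpowers_iff.1 hu
    obtain ⟨t, ht⟩ : ∃ t : ℕ, u = rt p 0 ^ t := by
      have hfin : IsOfFinOrder (rt p 0) := isOfFinOrder_iff_pow_eq_one.2 ⟨_, hpos, rt_pow p 0⟩
      obtain ⟨t, ht⟩ := (hfin.mem_powers_iff_mem_zpowers).2 hu
      exact ⟨t, ht.symm⟩
    have h6 := sub_dvd_pow_sub_pow (1 : Cy p 0) (rt p 0 : Cy p 0) t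
    rw [one_pow, ← Units.val_pow_eq_pow_val, ← ht] at h6
    exact h6
  obtain ⟨d, hd⟩ := h1
  refine ⟨-(d • a), ?_⟩
  show (1 - (rt p 0 : Cy p 0)) • (-(d • a)) = _
  rw [smul_neg, ← mul_smul, ← hd, sub_smul, one_smul]
  abel

lemma v_mem {G : Type u} [Group G] {n : ℕ} (e : G →* Aff (Cy p 0) A)
    (he : ∀ g, (e g).u ∈ Subgroup.zpowers (rt p 0))
    (w : Fin n → Adj G n) (hs : (expMat w).det ≠ 0) {r : ℕ} (g : Fin r → G)
    (h : ∃ h : Fin r → Ext G w, (List.ofFn fun i => h i * toExt G w (g i) * (h i)⁻¹).prod = 1) :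
    (e (List.ofFn g).prod).v ∈ aug1 p A := by
  by_contra hcon
  have h1 : (QuotientAddGroup.mk' (aug1 p A)) (e (List.ofFn g).prod).v ≠ 0 := by
    intro h0
    rw [QuotientAddGroup.mk'_apply, QuotientAddGroup.eq_zero_iff] at h0
    exact hcon h0
  obtain ⟨χ, hχ⟩ := CharacterModule.exists_character_apply_ne_zero_of_ne_zero h1
  apply hχ
  have h2 : ∀ (x : G) (a : A), (QuotientAddGroup.mk' (aug1 p A)) (((e x).u : Cy p 0) • a) =
      (QuotientAddGroup.mk' (aug1 p A)) a := by
    intro x a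
    rw [← sub_eq_zero, ← map_sub, QuotientAddGroup.mk'_apply, QuotientAddGroup.eq_zero_iff]
    exact smul_sub_mem p _ (he x) a
  let f : G →* Multiplicative (AddCircle (1 : ℚ)) :=
    { toFun := fun x => Multiplicative.ofAdd (χ ((QuotientAddGroup.mk' (aug1 p A)) (e x).v))
      map_one' := by simp
      map_mul' := fun x y => by
        rw [map_mul e, Aff.mul_v, map_add, h2, map_add]; rfl }
  have h3 := abelian_test w hs circle_div f g h
  exact h3

end zero

/-- **Conjecture G over `A ⋊ μ`.** -/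
theorem main (p k : ℕ) [hp : Fact p.Prime] {A : Type u} [AddCommGroup A] [Module (Cy p k) A]
    (hA : k = 0 ∨ ∀ a : A, ∃ b : A, p • b = a) {G : Type u} [Group G] (E : G ≃* Fr p k A) {n : ℕ}
    (w : Fin n → Adj G n) (hs : (expMat w).det ≠ 0) : Conservative (toExt G w) := by
  intro r g h
  let e : G →* Aff (Cy p k) A := (Subgroup.subtype _).comp E.toMonoidHom
  have he : ∀ g, (e g).u ∈ Subgroup.zpowers (rt p k) := fun g => (E g).2
  have hinj : Function.Injective e := Subtype.val_injective.comp E.injective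
  have hsurj : ∀ x : Aff (Cy p k) A, x.u ∈ Subgroup.zpowers (rt p k) → ∃ g, e g = x :=
    fun x hx => ⟨E.symm ⟨x, hx⟩, by simp [e]⟩
  have hdata := exists_test p k e he w hs
  by_cases hg : ∀ i, (e (g i)).u = 1
  · obtain ⟨ε, hε⟩ := rotations e (rt p k) he w hdata g hg h
    choose κ hκ using fun i => hsurj ⟨0, rt p k ^ ε i⟩ (Subgroup.zpow_mem_zpowers _ _)
    refine ⟨κ, ?_⟩
    apply hinj
    rw [map_list_prod, List.map_ofFn, map_one]
    have h2 := ofFn_of_u_one (fun i => e (κ i) * e (g i) * (e (κ i))⁻¹)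
      (fun i => by rw [Aff.conj_u]; exact hg i)
    have h1 : (e ∘ fun i => κ i * g i * (κ i)⁻¹) = fun i => e (κ i) * e (g i) * (e (κ i))⁻¹ := by
      funext i; simp
    rw [h1]
    ext1
    · rw [h2.2, Aff.one_v, ← hε]
      apply Finset.sum_congr rfl
      intro i _
      rw [Aff.conj_v _ _ (hg i), hκ]
    · exact h2.1
  · push Not at hg
    have hu := u_one e (rt p k) w hdata g h
    obtain ⟨S, hd, hS⟩ : ∃ S : A → Prop, (∀ i, (e (g i)).u = 1 ∨
        ∀ c : A, S c → ∃ b : A, b - ((e (g i)).u : Cy p k) • b = c) ∧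
        S (-(e (List.ofFn g).prod).v) := by
      rcases hA with rfl | hA
      · refine ⟨fun c => c ∈ aug1 p A, fun i => ?_, neg_mem (v_mem p e he w hs g h)⟩
        by_cases h1 : (e (g i)).u = 1
        · exact Or.inl h1
        · right
          rintro c ⟨b, rfl⟩
          obtain ⟨d, hd⟩ := one_sub_dvd_one_sub p _ (he (g i)) h1
          refine ⟨d • b, ?_⟩
          show (d • b) - ((e (g i)).u : Cy p 0) • (d • b) = (1 - (rt p 0 : Cy p 0)) • b
          rw [hd, mul_smul, sub_smul, one_smul]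
      · refine ⟨fun _ => True, fun i => ?_, trivial⟩
        by_cases h1 : (e (g i)).u = 1
        · exact Or.inl h1
        · right
          intro c _
          obtain ⟨d, hd⟩ := one_sub_dvd p k _ (he (g i)) h1
          obtain ⟨b, hb⟩ := hA c
          refine ⟨d • b, ?_⟩
          have h2 : (d • b) - ((e (g i)).u : Cy p k) • (d • b) = (p : Cy p k) • b := by
            rw [hd, mul_smul, sub_smul, one_smul]
          rw [h2, Nat.cast_smul_eq_nsmul, hb]
    obtain ⟨κ, hκ⟩ := adjust S r (fun i => e (g i)) hd hg (-(e (List.ofFn g).prod).v) hS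
    choose κ' hκ' using fun i => hsurj ⟨κ i, 1⟩ (Subgroup.one_mem _)
    refine ⟨κ', ?_⟩
    apply hinj
    rw [map_list_prod, List.map_ofFn, map_one]
    have h1 : (e ∘ fun i => κ' i * g i * (κ' i)⁻¹) =
        fun i => (⟨κ i, 1⟩ : Aff (Cy p k) A) * e (g i) * (⟨κ i, 1⟩ : Aff (Cy p k) A)⁻¹ := by
      funext i; simp [hκ']
    rw [h1, hκ]
    have h3 : (List.ofFn fun i => e (g i)).prod = e (List.ofFn g).prod := by
      rw [map_list_prod, List.map_ofFn]; rfl
    rw [h3]
    ext1
    · simp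
    · simp [hu]

/-! ### Dihedral groups -/

/-- the generalized dihedral group of the abelian group `A`: pairs `(a, s)` with `s = 1` or `s = -1`
and `(a, s) (b, t) = (a + s b, s t)` -/
abbrev Dih (A : Type u) [AddCommGroup A] : Type u := Aff ℤ A

/-- `ω ↦ -1` -/
noncomputable def f2 : Cy 2 0 →+* ℤ := AdjoinRoot.lift (RingHom.id ℤ) (-1) (by
  have h : cyclotomic (2 ^ (0 + 1)) ℤ = ∑ i ∈ Finset.range 2, (X ^ (2 ^ 0)) ^ i :=
    cyclotomic_prime_pow_eq_geom_sum Nat.prime_two
  rw [h]
  simp [Finset.sum_range_succ])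

lemma rt_two : rt 2 0 = -1 := by
  ext1
  have h : ∑ i ∈ Finset.range 2, ((rr 2 0) ^ (2 ^ 0)) ^ i = 0 := root_sum 2 0
  have h2 : (rr 2 0) ^ (2 ^ 0) = rr 2 0 := pow_one (rr 2 0)
  have h3 : ((rr 2 0) ^ (2 ^ 0)) ^ 0 + ((rr 2 0) ^ (2 ^ 0)) ^ 1 = 0 := by
    rw [← h, Finset.sum_range_succ, Finset.sum_range_one]
  have h4 : ((rr 2 0) ^ (2 ^ 0)) ^ 0 = 1 := pow_zero _
  have h5 : ((rr 2 0) ^ (2 ^ 0)) ^ 1 = rr 2 0 := (pow_one _).trans h2
  rw [h4, h5] at h3
  rw [rt_val, Units.val_neg, Units.val_one]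
  linear_combination h3

/-- every abelian group as a module over `ℤ[ω]`, `ω = -1` -/
noncomputable abbrev mod2 (A : Type u) [AddCommGroup A] : Module (Cy 2 0) A := Module.compHom A f2

lemma dih_equiv (A : Type u) [AddCommGroup A] :
    letI := mod2 A
    Nonempty (Dih A ≃* Fr 2 0 A) := by
  letI := mod2 A
  have hmem : ∀ u : ℤˣ, Units.map (Int.castRingHom (Cy 2 0) : ℤ →* Cy 2 0) u ∈
      Subgroup.zpowers (rt 2 0) := by
    intro u
    rcases Int.units_eq_one_or u with rfl | rfl
    · rw [map_one]; exact Subgroup.one_mem _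
    · refine Subgroup.mem_zpowers_iff.2 ⟨1, ?_⟩
      rw [zpow_one, rt_two]
      ext1
      simp
  let F : Dih A →* Fr 2 0 A :=
    { toFun := fun x => ⟨⟨x.v, Units.map (Int.castRingHom (Cy 2 0) : ℤ →* Cy 2 0) x.u⟩, hmem x.u⟩
      map_one' := by
        apply Subtype.ext
        ext <;> simp
      map_mul' := fun x y => by
        apply Subtype.ext
        ext1
        · show x.v + (x.u : ℤ) • y.v = x.v + (((x.u : ℤ) : Cy 2 0)) • y.v
          congr 1
          show (x.u : ℤ) • y.v = f2 ((x.u : ℤ) : Cy 2 0) • y.v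
          rw [map_intCast]
          simp
        · show _ = _ * _
          simp }
  refine ⟨MulEquiv.ofBijective F ⟨?_, ?_⟩⟩
  · intro x y hxy
    have h1 : (F x).1 = (F y).1 := congrArg Subtype.val hxy
    have h2 : (F x).1.v = (F y).1.v := by rw [h1]
    change x.v = y.v at h2
    have h3 : (((F x).1.u : (Cy 2 0)ˣ) : Cy 2 0) = (((F y).1.u : (Cy 2 0)ˣ) : Cy 2 0) := by rw [h1]
    change ((x.u : ℤ) : Cy 2 0) = ((y.u : ℤ) : Cy 2 0) at h3
    ext1
    · exact h2
    · ext1
      exact_mod_cast h3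
  · rintro ⟨⟨v, u⟩, hu⟩
    obtain ⟨l, hl⟩ := Subgroup.mem_zpowers_iff.1 hu
    have hl' : (rt 2 0) ^ l = u := hl
    rw [rt_two] at hl'
    rcases Int.even_or_odd' l with ⟨t, rfl | rfl⟩
    · refine ⟨⟨v, 1⟩, ?_⟩
      apply Subtype.ext
      have : u = 1 := by
        rw [← hl', zpow_mul, show (2 : ℤ) = ((2 : ℕ) : ℤ) from rfl, zpow_natCast, neg_one_sq, one_zpow]
      show (⟨v, Units.map (Int.castRingHom (Cy 2 0) : ℤ →* Cy 2 0) 1⟩ : Aff (Cy 2 0) A) = ⟨v, u⟩
      rw [this, map_one]
    · refine ⟨⟨v, -1⟩, ?_⟩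
      apply Subtype.ext
      have : u = -1 := by
        rw [← hl', zpow_add, zpow_mul, show (2 : ℤ) = ((2 : ℕ) : ℤ) from rfl, zpow_natCast, neg_one_sq,
          one_zpow, one_mul, zpow_one]
      show (⟨v, Units.map (Int.castRingHom (Cy 2 0) : ℤ →* Cy 2 0) (-1)⟩ : Aff (Cy 2 0) A) = ⟨v, u⟩
      rw [this]
      ext1
      · rfl
      · ext1; simp

/-- the dihedral group of order `2n` (infinite if `n = 0`) is the generalized dihedral group of
`ZMod n` -/
def dihEquiv (n : ℕ) : DihedralGroup n ≃* Dih (ZMod n) where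
  toFun x := match x with
    | DihedralGroup.r i => ⟨i, 1⟩
    | DihedralGroup.sr i => ⟨-i, -1⟩
  invFun p := if p.u = 1 then DihedralGroup.r p.v else DihedralGroup.sr (-p.v)
  left_inv x := by
    rcases x with i | i <;> simp
  right_inv p := by
    rcases Int.units_eq_one_or p.u with h | h
    · ext <;> simp [h]
    · ext <;> simp [h]
  map_mul' x y := by
    rcases x with i | i <;> rcases y with j | j <;> ext <;> simp [sub_eq_add_neg, add_comm]

/-- **Main theorem.**  (1) Let `p` be a prime, `ω` a root of unity of order `p ^ (k + 1)` and `A` a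
`ℤ[ω]`-module, with `p A = A` unless `k = 0`.  Conjecture G holds for every group isomorphic to the
semidirect product of `A` and the group of powers of `ω`, and all Kervaire extensions.
(2) It holds for all generalized dihedral groups and (3) for all dihedral groups. -/
theorem result :
    (∀ (p k : ℕ) [Fact p.Prime] (A : Type u) [AddCommGroup A] [Module (Cy p k) A],
      (k = 0 ∨ ∀ a : A, ∃ b : A, p • b = a) → ∀ (G : Type u) [Group G], Nonempty (G ≃* Fr p k A) →
      ∀ (n : ℕ) (w : Fin n → Adj G n), (expMat w).det ≠ 0 → Conservative (toExt G w)) ∧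
    (∀ (A : Type u) [AddCommGroup A] (G : Type u) [Group G], Nonempty (G ≃* Dih A) →
      ∀ (n : ℕ) (w : Fin n → Adj G n), (expMat w).det ≠ 0 → Conservative (toExt G w)) ∧
    (∀ (m n : ℕ) (w : Fin n → Adj (DihedralGroup m) n), (expMat w).det ≠ 0 →
      Conservative (toExt (DihedralGroup m) w)) := by
  have h2 : ∀ (A : Type u) [AddCommGroup A] (G : Type u) [Group G], Nonempty (G ≃* Dih A) →
      ∀ (n : ℕ) (w : Fin n → Adj G n), (expMat w).det ≠ 0 → Conservative (toExt G w) := by
    intro A _ G _ ⟨E⟩ n w hs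
    letI := mod2 A
    obtain ⟨E2⟩ := dih_equiv A
    exact main 2 0 (Or.inl rfl) (E.trans E2) w hs
  have h3 : ∀ (A : Type) [AddCommGroup A] (G : Type) [Group G], Nonempty (G ≃* Dih A) →
      ∀ (n : ℕ) (w : Fin n → Adj G n), (expMat w).det ≠ 0 → Conservative (toExt G w) := by
    intro A _ G _ ⟨E⟩ n w hs
    letI := mod2 A
    obtain ⟨E2⟩ := dih_equiv A
    exact main 2 0 (Or.inl rfl) (E.trans E2) w hs
  exact ⟨fun p k _ _ _ _ hA _ _ ⟨E⟩ _ w hs => main p k hA E w hs, h2,
    fun m n w hs => h3 (ZMod m) (DihedralGroup m) ⟨dihEquiv m⟩ n w hs⟩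


end Pool.Agent.Results.MP_e9d015_al.FrobeniusSystems
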